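import Pool.Agent.Q291.CS.Blocks
import Pool.Agent.W424.NC.ArmLow

/-!
The lower bound for the tail of the cluster size below the critical point, in finite volume.
-/

set_option autoImplicit false

namespace Q291.CS
open Finset H974 Pool.Agent.H160R2.CV Pool.Agent.H160R2.CV.Quad H362P Pool.Agent.Y244.PC

theorem far_prob {q : ℝ} (h0 : 0 ≤ q) (h1 : q ≤ 1) {v : Vtx} {r : ℕ} {S : Finset Edg}
    (hS : bo v r ⊆ S) : arm q r ≤ Pr (fun _ => q) S (Far v r) := by
  have e : Pr (fun _ => q) S (Far v r) = Pr (fun _ => q) (sh v S) (Far 0 r) := by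
    rw [show Pr (fun _ => q) (sh v S) (Far 0 r) = Pr (fun _ => q) S (fun F => Far 0 r (sh v F)) from
      (Ex_sh q v S (fun F => ind (Far 0 r F))).symm]
    apply Pr_congr
    intro F _
    rw [Far_sh, zero_add]
  have hsub : boxE r ⊆ sh v S := by
    rw [← sh_bo v r]
    exact sh_mono hS
  rw [e, ← pr_Arm q hsub]
  apply Pr_mono (okq h0 h1)
  rintro F _ ⟨w, hw, hr⟩
  refine ⟨w, ?_, hr.mono Set.inter_subset_left⟩
  rw [sub_zero]
  unfold onB inR at hw
  unfold nv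
  omega

/-- many vertices with a long arm -/
theorem count_p {a : ℝ} (ha : 0 < a) : ∃ c : ℝ, 0 < c ∧ c ≤ 1 ∧ ∀ (p : ℝ) (m : ℕ), 0 ≤ p →
    p ≤ 1 / 2 → 1 ≤ m → a * ((4 * m : ℕ) : ℝ) ^ (-(5 / 48 : ℝ)) ≤ arm p (4 * m) →
    ∀ S : Finset Edg, boxE (5 * m) ⊆ S →
      c ≤ Pr (fun _ => p) S (fun F => a / 2 * (m : ℝ) ^ (91 / 48 : ℝ) ≤ Yc m F) := by
  classical
  obtain ⟨C2, hC2, h2⟩ := second_moment
  obtain ⟨cc, C, hcc, hC, har⟩ := Pool.Agent.H160R2.SA.arSharp
  obtain ⟨D, hD⟩ : ∃ D : ℝ, D = C2 * C ^ 2 := ⟨_, rfl⟩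
  have hD0 : 0 < D := by rw [hD]; positivity
  refine ⟨min (a ^ 2 / (4 * D)) 1, lt_min (by positivity) one_pos, min_le_right _ _, ?_⟩
  intro p m h0 h1 hm harm S hS
  refine (min_le_left _ _).trans ?_
  have ok := okq h0 (show p ≤ 1 by linarith)
  have hm1 : (1 : ℝ) ≤ m := by exact_mod_cast hm
  have hm0 : (0 : ℝ) < m := by linarith
  obtain ⟨A, hA⟩ : ∃ A : ℝ, A = (m : ℝ) ^ (91 / 48 : ℝ) := ⟨_, rfl⟩
  have hA0 : 0 < A := by rw [hA]; positivity
  have e2 : (m : ℝ) ^ 2 * (m : ℝ) ^ (-(5 / 48 : ℝ)) = A := by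
    rw [hA, ← Real.rpow_natCast (m : ℝ) 2, ← Real.rpow_add hm0]
    norm_num
  rw [← hA]
  obtain ⟨Y, hY⟩ : ∃ Y : Finset Edg → ℝ, Y = Yc m := ⟨_, rfl⟩
  have hY0 : ∀ F, 0 ≤ Y F := by rw [hY]; exact Yc_nonneg m
  -- first moment
  have hEY : a * A ≤ Ex (fun _ => p) S Y := by
    have e0 : Ex (fun _ => p) S Y =
        ∑ x ∈ bx m, Ex (fun _ => p) S (fun F => ind (Far x (4 * m) F)) := by
      rw [hY]
      unfold Yc
      rw [Ex_sum]
    rw [e0]
    have h5 : ∀ x ∈ bx m, arm p (4 * m) ≤ Ex (fun _ => p) S (fun F => ind (Far x (4 * m) F)) := by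
      intro x hx
      apply far_prob h0 (by linarith)
      refine Finset.Subset.trans ?_ hS
      apply bo_sub_box
      rw [VolAux.mem_bx] at hx
      omega
    have h4 : (4 : ℝ) ^ (-(5 / 48 : ℝ)) ≥ 1 / 4 := by
      have : (4 : ℝ) ^ (-(1 : ℝ)) ≤ (4 : ℝ) ^ (-(5 / 48 : ℝ)) :=
        Real.rpow_le_rpow_of_exponent_le (by norm_num) (by norm_num)
      rw [Real.rpow_neg_one] at this
      linarith
    have h6 : a * (1 / 4 * (m : ℝ) ^ (-(5 / 48 : ℝ))) ≤ arm p (4 * m) := by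
      refine le_trans ?_ harm
      apply mul_le_mul_of_nonneg_left _ ha.le
      push_cast
      rw [Real.mul_rpow (by norm_num) hm0.le]
      exact mul_le_mul_of_nonneg_right h4 (by positivity)
    have h7 : 0 ≤ a * (1 / 4 * (m : ℝ) ^ (-(5 / 48 : ℝ))) := by positivity
    calc a * A = (4 * (m : ℝ) ^ 2) * (a * (1 / 4 * (m : ℝ) ^ (-(5 / 48 : ℝ)))) := by
          rw [← e2]; ring
      _ ≤ (2 * (m : ℝ) + 1) ^ 2 * (a * (1 / 4 * (m : ℝ) ^ (-(5 / 48 : ℝ)))) := by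
          apply mul_le_mul_of_nonneg_right _ h7
          nlinarith
      _ ≤ (2 * (m : ℝ) + 1) ^ 2 * arm p (4 * m) :=
          mul_le_mul_of_nonneg_left h6 (by positivity)
      _ = ∑ x ∈ bx m, arm p (4 * m) := by rw [Finset.sum_const, nsmul_eq_mul, w_card_bx]
      _ ≤ _ := Finset.sum_le_sum h5
  -- second moment
  have hEY2 : Ex (fun _ => p) S (fun F => Y F ^ 2) ≤ D * A ^ 2 := by
    have h7 : Ex (fun _ => p) S (fun F => Y F ^ 2) ≤ Ex P S (fun F => Y F ^ 2) := by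
      apply Ex_le_half h0 h1
      intro F G h
      apply pow_le_pow_left₀ (hY0 F)
      rw [hY]
      exact Yc_mono h
    refine h7.trans ?_
    have h8 : ∀ F, Y F ^ 2 = ∑ x ∈ bx m, ∑ y ∈ bx m, ind (Far x (4 * m) F ∧ Far y (4 * m) F) := by
      intro F
      rw [hY, sq]
      unfold Yc
      rw [Finset.sum_mul_sum]
      apply Finset.sum_congr rfl
      intro x _
      apply Finset.sum_congr rfl
      intro y _
      rw [ind_and]
    have h9 : Ex P S (fun F => Y F ^ 2) = ∑ x ∈ bx m, ∑ y ∈ bx m,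
        Pr P S (fun F => Far x (4 * m) F ∧ Far y (4 * m) F) := by
      rw [Ex_congr (g := fun F => ∑ x ∈ bx m, ∑ y ∈ bx m,
        ind (Far x (4 * m) F ∧ Far y (4 * m) F)) (fun F _ => h8 F), Ex_sum]
      apply Finset.sum_congr rfl
      intro x _
      rw [Ex_sum]
      rfl
    rw [h9]
    have h10 : ∑ x ∈ bx m, ∑ y ∈ bx m, Pr P S (fun F => Far x (4 * m) F ∧ Far y (4 * m) F) ≤
        C2 * ((m : ℝ) ^ 2 * ar m) ^ 2 := by
      refine le_trans ?_ (h2 m hm S)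
      apply Finset.sum_le_sum
      intro x _
      apply Finset.sum_le_sum
      intro y _
      apply Pr_mono w_ok
      rintro F _ ⟨k1, k2⟩
      exact ⟨k1.mono_r (by omega), k2.mono_r (by omega)⟩
    refine h10.trans ?_
    have h11 : (m : ℝ) ^ 2 * ar m ≤ C * A := by
      calc (m : ℝ) ^ 2 * ar m ≤ (m : ℝ) ^ 2 * (C * (m : ℝ) ^ (-(5 / 48 : ℝ))) :=
            mul_le_mul_of_nonneg_left (har m hm).2 (by positivity)
        _ = C * ((m : ℝ) ^ 2 * (m : ℝ) ^ (-(5 / 48 : ℝ))) := by ring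
        _ = C * A := by rw [e2]
    have h12 : 0 ≤ (m : ℝ) ^ 2 * ar m := mul_nonneg (by positivity) (ar_pos m).le
    calc C2 * ((m : ℝ) ^ 2 * ar m) ^ 2 ≤ C2 * (C * A) ^ 2 :=
          mul_le_mul_of_nonneg_left (pow_le_pow_left₀ h12 h11 2) hC2.le
      _ = D * A ^ 2 := by rw [hD]; ring
  -- the good event
  obtain ⟨Gd, hGd⟩ : ∃ Gd : Finset Edg → Prop, Gd = fun F => a / 2 * A ≤ Y F := ⟨_, rfl⟩
  obtain ⟨s, hs⟩ : ∃ s : ℝ, s = 2 * D * A / a := ⟨_, rfl⟩
  have hs0 : 0 < s := by rw [hs]; positivity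
  have hpt : ∀ F, Y F ≤ a / 2 * A + (1 / (2 * s) * Y F ^ 2 + s / 2 * ind (Gd F)) := by
    intro F
    by_cases hy : a / 2 * A ≤ Y F
    · rw [ind_of (show Gd F by rw [hGd]; exact hy), mul_one]
      have h10 : Y F ≤ 1 / (2 * s) * Y F ^ 2 + s / 2 := by
        rw [← sub_nonneg]
        have : 1 / (2 * s) * Y F ^ 2 + s / 2 - Y F = 1 / (2 * s) * (Y F - s) ^ 2 := by
          field_simp
          ring
        rw [this]
        positivity
      have : 0 < a / 2 * A := by positivity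
      linarith
    · push Not at hy
      have h11 := ind_nonneg (Gd F)
      have : 0 ≤ 1 / (2 * s) * Y F ^ 2 + s / 2 * ind (Gd F) := by positivity
      linarith
  have hint : Ex (fun _ => p) S Y ≤ a / 2 * A +
      (1 / (2 * s) * Ex (fun _ => p) S (fun F => Y F ^ 2) + s / 2 * Pr (fun _ => p) S Gd) := by
    refine (Ex_mono ok (fun F _ => hpt F)).trans (le_of_eq ?_)
    rw [Ex_add, Ex_const, Ex_add, Ex_mul_left, Ex_mul_left]
    rfl
  have h12 : a * A ≤ a / 2 * A + (1 / (2 * s) * (D * A ^ 2) + s / 2 * Pr (fun _ => p) S Gd) := by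
    refine hEY.trans (hint.trans ?_)
    have : 1 / (2 * s) * Ex (fun _ => p) S (fun F => Y F ^ 2) ≤ 1 / (2 * s) * (D * A ^ 2) :=
      mul_le_mul_of_nonneg_left hEY2 (by positivity)
    linarith
  have h13 : 1 / (2 * s) * (D * A ^ 2) = a * A / 4 := by
    rw [hs]; field_simp; ring
  rw [h13] at h12
  have h14 : a * A / 4 ≤ s / 2 * Pr (fun _ => p) S Gd := by linarith
  have h15 : s / 2 = D * A / a := by rw [hs]; ring
  rw [h15] at h14
  have h16 : a / 4 ≤ D / a * Pr (fun _ => p) S Gd := by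
    have h17 : (a / 4) * A ≤ (D / a * Pr (fun _ => p) S Gd) * A := by
      calc (a / 4) * A = a * A / 4 := by ring
        _ ≤ _ := h14
        _ = _ := by ring
    exact le_of_mul_le_mul_right h17 hA0
  have h20 : Pr (fun _ => p) S Gd = Pr (fun _ => p) S (fun F => a / 2 * A ≤ Yc m F) := by
    rw [hGd, hY]
  rw [← h20]
  rw [div_le_iff₀ (by positivity)]
  have h18 : a / 4 * a ≤ D / a * Pr (fun _ => p) S Gd * a := mul_le_mul_of_nonneg_right h16 ha.le
  have h19 : D / a * Pr (fun _ => p) S Gd * a = D * Pr (fun _ => p) S Gd := by field_simp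
  rw [h19] at h18
  nlinarith

/-- the count event at `z` -/
def CtP (z : Vtx) (y : ℝ) (m : ℕ) (F : Finset Edg) : Prop := y ≤ Yc m (sh z F)

theorem CtP_incr (S : Finset Edg) (z : Vtx) (y : ℝ) (m : ℕ) : IncrE S (CtP z y m) :=
  fun _ _ h _ hF => le_trans hF (Yc_mono (sh_mono h))

theorem CtP_set {z : Vtx} {y : ℝ} {m : ℕ} {F : Finset Edg} (h : CtP z y m F) :
    ∃ T : Finset Vtx, y ≤ (T.card : ℝ) ∧ ∀ u ∈ T, nv (u - z) ≤ m ∧ Far u (4 * m) F := by
  classical
  unfold CtP Yc at h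
  rw [w_sum_ind] at h
  refine ⟨((bx m).filter (fun x => Far x (4 * m) (sh z F))).map (addRightEmbedding z), ?_, ?_⟩
  · rwa [Finset.card_map]
  · intro u hu
    rw [Finset.mem_map] at hu
    obtain ⟨w, hw, rfl⟩ := hu
    rw [Finset.mem_filter] at hw
    obtain ⟨hw, hf⟩ := hw
    refine ⟨?_, Far_sh.mp hf⟩
    show nv (w + z - z) ≤ m
    rw [add_sub_cancel_right]
    exact VolAux.mem_bx.mp hw

/-- the grid and the counts produce a large cluster of the origin -/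
theorem grid_vol {m i0 : ℕ} (hm : 1 ≤ m) {F : Finset Edg}
    (hG : Grid ((4 * i0 + 3) * m) m (2 * i0 + 1) F) (hF0 : Far 0 (4 * m) F) {y : ℝ}
    (hC : ∀ q ∈ range (2 * i0 + 1) ×ˢ range (2 * i0 + 1),
      CtP (cen ((4 * i0 + 3) * m) m q.1 q.2) y m F) :
    Vol (((2 * i0 + 1 : ℕ) : ℝ) ^ 2 * y) ↑F := by
  classical
  obtain ⟨K, hKd⟩ : ∃ K : ℕ, K = 2 * i0 + 1 := ⟨_, rfl⟩
  obtain ⟨n, hn⟩ : ∃ n : ℕ, n = (4 * i0 + 3) * m := ⟨_, rfl⟩
  have hK : 4 * m * K + 2 * m ≤ 2 * n := by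
    rw [hKd, hn]
    apply le_of_eq
    ring
  rw [← hKd, ← hn] at hG hC
  rw [← hKd]
  obtain ⟨z, hz, hr⟩ := grid_meet hm hK hG
  have h1 : ∀ q : ℕ × ℕ, ∃ T : Finset Vtx, q ∈ range K ×ˢ range K →
      y ≤ (T.card : ℝ) ∧ ∀ u ∈ T, nv (u - cen n m q.1 q.2) ≤ m ∧ Far u (4 * m) F := by
    intro q
    by_cases hq : q ∈ range K ×ˢ range K
    · obtain ⟨T, h2, h3⟩ := CtP_set (hC q hq)
      exact ⟨T, fun _ => ⟨h2, h3⟩⟩
    · exact ⟨∅, fun h => absurd h hq⟩
  choose T hT using h1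
  have h0 : Reach (↑F) (0, 0) z := by
    have hcen : cen n m i0 i0 = (0, 0) := by
      unfold Pool.Agent.Y244.PC.cen st
      rw [hn]
      push_cast
      ext <;> simp only <;> ring
    refine (hr i0 i0 (by omega) (by omega) (0, 0) ?_ hF0).mono Set.inter_subset_left
    rw [hcen]
    simp [nv]
  refine ⟨(range K ×ˢ range K).biUnion T, ?_, ?_⟩
  · rw [Finset.card_biUnion]
    · push_cast
      calc (K : ℝ) ^ 2 * y = ∑ q ∈ range K ×ˢ range K, y := by
            rw [Finset.sum_const, Finset.card_product, Finset.card_range, nsmul_eq_mul]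
            push_cast
            ring
        _ ≤ _ := Finset.sum_le_sum fun q hq => (hT q hq).1
    · intro q hq q' hq' hne
      show Disjoint (T q) (T q')
      rw [Finset.disjoint_left]
      intro u hu hu'
      have := cen_disj hm ((hT q hq).2 u hu).1 ((hT q' hq').2 u hu').1
      exact hne (Prod.ext this.1 this.2)
  · intro u hu
    rw [Finset.mem_biUnion] at hu
    obtain ⟨q, hq, hu⟩ := hu
    obtain ⟨h2, h3⟩ := (hT q hq).2 u hu
    rw [Finset.mem_product, Finset.mem_range, Finset.mem_range] at hq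
    exact h0.trans (((hr q.1 q.2 hq.1 hq.2 u h2 h3).mono Set.inter_subset_left).symm)

theorem grid_low {p κ c y : ℝ} {m i0 : ℕ} (hm : 1 ≤ m) (hW : H12S.Win p κ (4 * m)) (hc : 0 < c)
    (hct : ∀ S : Finset Edg, boxE (5 * m) ⊆ S → c ≤ Pr (fun _ => p) S (fun F => y ≤ Yc m F)) :
    ∃ M : ℕ, arm p (4 * m) * (κ ^ 4 * c) ^ ((2 * i0 + 1) ^ 2) ≤
      Pr (fun _ => p) (boxE M) (fun F => Vol (((2 * i0 + 1 : ℕ) : ℝ) ^ 2 * y) ↑F) := by
  classical
  have h0 : 0 ≤ p := by linarith [hW.lo]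
  have h1 : p ≤ 1 := by linarith [hW.hi]
  have ok := okq h0 h1
  have hk := hW.kpos
  have hk1 : κ ≤ 1 := by linarith [hW.kle]
  obtain ⟨K, hKd⟩ : ∃ K : ℕ, K = 2 * i0 + 1 := ⟨_, rfl⟩
  obtain ⟨n, hn⟩ : ∃ n : ℕ, n = (4 * i0 + 3) * m := ⟨_, rfl⟩
  have hK : 4 * m * K + 2 * m ≤ 2 * n := by
    rw [hKd, hn]
    apply le_of_eq
    ring
  obtain ⟨S, hS⟩ : ∃ S : Finset Edg, S = boxE (n + 2 * m) := ⟨_, rfl⟩
  have hSn : boxE n ⊆ S := by rw [hS]; exact boxE_mono (by omega)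
  refine ⟨n + 2 * m, ?_⟩
  rw [← hS, ← hKd]
  obtain ⟨q0, hq0⟩ : ∃ q0 : ℝ, q0 = κ ^ K := ⟨_, rfl⟩
  have hq00 : 0 < q0 := by rw [hq0]; exact pow_pos hk _
  have hstrip : q0 ≤ hh p (2 * (n : ℤ)) (2 * m) := by
    have hw := Pool.Agent.W424.NC.hh_long (hW.anti (show 2 * m ≤ 4 * m by omega)) (by omega) i0
    rw [hq0, hKd]
    refine hw.trans ?_
    have hn' : (n : ℤ) = (4 * i0 + 3) * m := by rw [hn]; push_cast; ring
    have hm' : (1 : ℤ) ≤ m := by exact_mod_cast hm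
    have him : (0 : ℤ) ≤ (m : ℤ) * i0 := by positivity
    apply hh_mono h0 h1
    · omega
    · push_cast
      rw [hn']
      nlinarith
    · push_cast
      omega
  have f1 := fkg_incr ok (S := S) (range (K + 1))
    (fun i => LRc (-(n : ℤ)) n (st n m i) (st n m i + 2 * m)) (fun i _ => LRc_incr _ _ _ _ _)
  have f2 := fkg_incr ok (S := S) (range (K + 1))
    (fun i => TBc (st n m i) (st n m i + 2 * m) (-(n : ℤ)) n) (fun i _ => TBc_incr _ _ _ _ _)
  have f3 := fkg_incr ok (S := S) (range K ×ˢ range K)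
    (fun q => CtP (cen n m q.1 q.2) y m) (fun q _ => CtP_incr _ _ _ _)
  have g1 := (Pool.Agent.Y244.PC.pow_card_le_prod (range (K + 1)) _ hq00.le (fun i hi => by
      have hi' : i ≤ K := by rw [Finset.mem_range] at hi; omega
      have a1 := st_ge n m i
      have a3 := st_le hK hi'
      have k1 : LRE (-(n : ℤ)) n (st n m i) (st n m i + 2 * m) ⊆ S := by
        refine LRE_subset_RE.trans (Finset.Subset.trans ?_ hSn)
        unfold boxE
        exact RE_subset le_rfl le_rfl a1 a3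
      rw [pr_LRc p k1]
      refine hstrip.trans (le_of_eq ?_)
      congr 1 <;> ring)).trans f1
  have g2 := (Pool.Agent.Y244.PC.pow_card_le_prod (range (K + 1)) _ hq00.le (fun i hi => by
      have hi' : i ≤ K := by rw [Finset.mem_range] at hi; omega
      have a1 := st_ge n m i
      have a3 := st_le hK hi'
      have k1 : TBE (st n m i) (st n m i + 2 * m) (-(n : ℤ)) n ⊆ S := by
        refine TBE_subset_RE.trans (Finset.Subset.trans ?_ hSn)
        unfold boxE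
        exact RE_subset a1 a3 le_rfl le_rfl
      rw [pr_TBc p k1]
      refine hstrip.trans (le_of_eq ?_)
      congr 1 <;> ring)).trans f2
  have g3 := (Pool.Agent.Y244.PC.pow_card_le_prod (range K ×ˢ range K) _ hc.le (fun q hq => by
      rw [Finset.mem_product, Finset.mem_range, Finset.mem_range] at hq
      have k1 : Pr (fun _ => p) S (CtP (cen n m q.1 q.2) y m) =
          Pr (fun _ => p) (sh (cen n m q.1 q.2) S) (fun F => y ≤ Yc m F) :=
        Ex_sh p (cen n m q.1 q.2) S (fun F => ind (y ≤ Yc m F))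
      rw [k1]
      apply hct
      rw [← sh_bo (cen n m q.1 q.2) (5 * m)]
      apply sh_mono
      rw [hS]
      exact cen_bo hK hq.1 hq.2)).trans f3
  rw [Finset.card_range] at g1 g2
  rw [Finset.card_product, Finset.card_range] at g3
  have i1 : IncrE S (fun F => ∀ i ∈ range (K + 1),
      LRc (-(n : ℤ)) n (st n m i) (st n m i + 2 * m) F) :=
    fun F G hFG hG h i hi => (h i hi).mono hFG
  have i2 : IncrE S (fun F => ∀ i ∈ range (K + 1),
      TBc (st n m i) (st n m i + 2 * m) (-(n : ℤ)) n F) :=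
    fun F G hFG hG h i hi => (h i hi).mono hFG
  have i3 : IncrE S (fun F => ∀ q ∈ range K ×ˢ range K, CtP (cen n m q.1 q.2) y m F) :=
    fun F G hFG hG h q hq => CtP_incr S _ _ _ F G hFG hG (h q hq)
  have i4 : IncrE S (Far 0 (4 * m)) := fun F G hFG _ h => Far.mono_F hFG h
  have j1 := Pr_harris ok i1 i2
  have i12 : IncrE S (Grid n m K) :=
    fun F G hFG hG h => ⟨i1 F G hFG hG h.1, i2 F G hFG hG h.2⟩
  have j2 := Pr_harris ok i12 i3
  have i123 : IncrE S (fun F => Grid n m K F ∧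
      ∀ q ∈ range K ×ˢ range K, CtP (cen n m q.1 q.2) y m F) :=
    fun F G hFG hG h => ⟨i12 F G hFG hG h.1, i3 F G hFG hG h.2⟩
  have j3 := Pr_harris ok i4 i123
  have g4 : arm p (4 * m) ≤ Pr (fun _ => p) S (Far 0 (4 * m)) := by
    apply far_prob h0 h1
    rw [hS]
    apply bo_sub_box
    have : 3 * m ≤ n := by rw [hn]; exact Nat.mul_le_mul_right _ (by omega)
    simp only [nv, Prod.fst_zero, Prod.snd_zero, Int.natAbs_zero, max_self]
    omega
  have p1 : 0 ≤ q0 ^ (K + 1) := pow_nonneg hq00.le _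
  have p3 : 0 ≤ c ^ (K * K) := pow_nonneg hc.le _
  have k1 : q0 ^ (K + 1) * q0 ^ (K + 1) ≤ Pr (fun _ => p) S (Grid n m K) :=
    (mul_le_mul g1 g2 p1 (p1.trans g1)).trans j1
  have k2 := (mul_le_mul k1 g3 p3 ((mul_nonneg p1 p1).trans k1)).trans j2
  have p4 : 0 ≤ q0 ^ (K + 1) * q0 ^ (K + 1) * c ^ (K * K) := by positivity
  have k3 := (mul_le_mul g4 k2 p4 ((arm_nonneg h0 h1 _).trans g4)).trans j3
  have hfin : Pr (fun _ => p) S (fun F => Far 0 (4 * m) F ∧ Grid n m K F ∧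
      ∀ q ∈ range K ×ˢ range K, CtP (cen n m q.1 q.2) y m F) ≤
      Pr (fun _ => p) S (fun F => Vol ((K : ℝ) ^ 2 * y) ↑F) := by
    apply Pr_mono ok
    rintro F _ ⟨hF1, hF2, hF3⟩
    rw [hKd]
    rw [hKd, hn] at hF2 hF3
    exact grid_vol hm hF2 hF1 hF3
  refine le_trans ?_ (k3.trans hfin)
  apply mul_le_mul_of_nonneg_left _ (arm_nonneg h0 h1 _)
  rw [hq0, mul_pow, ← pow_mul, ← pow_mul, ← pow_add, sq K]
  apply mul_le_mul_of_nonneg_right _ p3
  apply pow_le_pow_of_le_one hk.le hk1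
  have hK1 : 1 ≤ K := by omega
  nlinarith

end Q291.CS
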