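import Pool.Agent.Q291.CS.Upper
import Pool.Agent.Q291.CS.Lower

/-!
The tail of the cluster size at and below the critical point.
-/

set_option autoImplicit false

namespace Q291.CS
open Finset H974 Pool.Agent.H160R2.CV Pool.Agent.H160R2.CV.Quad H362P Pool.Agent.Y244.PC
open MeasureTheory Filter

theorem law_vol (p : unitInterval) (m : ℕ) (x : ℝ) :
    (bondLaw p).real {ω | Vol x (opn ω ∩ ↑(boxE m))} =
      Pr (fun _ => (p : ℝ)) (boxE m) (fun F => Vol x ↑F) := by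
  have h := law_event p (boxE m) (fun F => Vol x ↑F)
  have e : {ω | Vol x (opn ω ∩ ↑(boxE m))} =
      {ω | (fun F : Finset Edg => Vol x ↑F) (FF (boxE m) ω)} := by
    ext ω
    simp only [Set.mem_ofPred_eq, FF_coe]
  rw [e, h]

/-- the tail of the cluster size -/
noncomputable def tl (p : unitInterval) (N : ℕ) : ℝ :=
  (bondLaw p).real {ω | (N : ℕ∞) ≤ (cluster0 ω).encard}

theorem tl_eq (p : unitInterval) (N : ℕ) :
    tl p N = (bondLaw p).real {ω | Vol N (opn ω)} := by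
  unfold tl
  congr 1
  ext ω
  exact InfAux.encard_iff ω N

theorem vol_le (p : unitInterval) (N : ℕ) (c : ℝ)
    (h : ∀ m : ℕ, Pr (fun _ => (p : ℝ)) (boxE m) (fun F => Vol N ↑F) ≤ c) : tl p N ≤ c := by
  rw [tl_eq]
  have e : {ω : sqLattice.edgeSet → Bool | Vol N (opn ω)} =
      ⋃ m : ℕ, {ω | Vol N (opn ω ∩ ↑(boxE m))} := by
    ext ω
    rw [Set.mem_iUnion]
    constructor
    · intro hω
      exact InfAux.vol_box hω
    · rintro ⟨m, hm⟩
      exact InfAux.vol_mono Set.inter_subset_left hm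
  have hm : Monotone (fun m : ℕ => {ω : sqLattice.edgeSet → Bool | Vol N (opn ω ∩ ↑(boxE m))}) := by
    intro m m' hmm ω hω
    exact InfAux.vol_mono (Set.inter_subset_inter_right _ (InfAux.boxE_coe_mono hmm)) hω
  have h1 := tendsto_measure_iUnion_atTop (μ := bondLaw p) hm
  rw [← e] at h1
  have h2 : Tendsto (fun m : ℕ => (bondLaw p).real {ω | Vol N (opn ω ∩ ↑(boxE m))}) atTop
      (nhds ((bondLaw p).real {ω | Vol N (opn ω)})) :=
    (ENNReal.tendsto_toReal (measure_ne_top _ _)).comp h1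
  refine le_of_tendsto' h2 (fun m => ?_)
  rw [law_vol]
  exact h m

theorem vol_ge (p : unitInterval) (N : ℕ) {x : ℝ} (hx : (N : ℝ) ≤ x) (m : ℕ) :
    Pr (fun _ => (p : ℝ)) (boxE m) (fun F => Vol x ↑F) ≤ tl p N := by
  rw [tl_eq, ← law_vol]
  refine measureReal_mono ?_ (measure_ne_top _ _)
  intro ω hω
  obtain ⟨T, hT, hr⟩ := InfAux.vol_mono (G := opn ω) Set.inter_subset_left hω
  exact ⟨T, hx.trans hT, hr⟩

theorem tl_half {p : unitInterval} (hp : (p : ℝ) ≤ 1 / 2) (N : ℕ) : tl p N ≤ tl hlf N := by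
  apply vol_le
  intro m
  refine le_trans ?_ (vol_ge hlf N le_rfl m)
  exact Ex_le_half p.2.1 hp (boxE m) (fun F G h => ind_mono (Vol_inc _ F G h))

theorem pow_eq {s : ℝ} (hs : 0 ≤ s) : s ^ (91 / 36 : ℝ) = (s ^ (4 / 3 : ℝ)) ^ (91 / 48 : ℝ) := by
  rw [← Real.rpow_mul hs]
  norm_num

theorem upper : ∃ c C : ℝ, 0 < c ∧ 0 < C ∧ ∀ p : unitInterval, (p : ℝ) ≤ 1 / 2 → ∀ N : ℕ, 1 ≤ N →
    tl p N ≤ C * (N : ℝ) ^ (-(5 / 91 : ℝ)) *
      Real.exp (-(c * (N * (1 / 2 - (p : ℝ)) ^ (91 / 36 : ℝ)))) := by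
  obtain ⟨A, c, E, hA, hc, hE, h⟩ := upper_fin
  obtain ⟨c1, C1, hc1, hC1, h1⟩ := sharp_vol Pool.Agent.H160R2.SA.arSharp
  obtain ⟨E2, hE2⟩ : ∃ E2 : ℝ, E2 = E ^ (91 / 48 : ℝ) := ⟨_, rfl⟩
  have hE21 : 1 ≤ E2 := by rw [hE2]; exact Real.one_le_rpow hE (by norm_num)
  have hE20 : 0 < E2 := by linarith
  refine ⟨c / (2 * E2), max (C1 * Real.exp c) (A * (2 / c)), by positivity,
    lt_max_of_lt_left (by positivity), fun p hp N hN => ?_⟩
  have hN' : (1 : ℝ) ≤ N := by exact_mod_cast hN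
  have hN0 : (0 : ℝ) < N := by linarith
  have hNp : 0 < (N : ℝ) ^ (-(5 / 91 : ℝ)) := by positivity
  have hcr : tl hlf N ≤ C1 * (N : ℝ) ^ (-(5 / 91 : ℝ)) := (h1 N hN).2
  rcases hp.eq_or_lt with heq | hlt
  · have hpe : p = hlf := Subtype.ext (by rw [heq]; rfl)
    rw [heq, sub_self, Real.zero_rpow (by norm_num), mul_zero, mul_zero, neg_zero, Real.exp_zero,
      mul_one, hpe]
    refine hcr.trans (mul_le_mul_of_nonneg_right ?_ hNp.le)
    refine le_trans ?_ (le_max_left _ _)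
    exact le_mul_of_one_le_right hC1.le (Real.one_le_exp hc.le)
  · obtain ⟨m, hm, hmE, hm1, hx⟩ := h p p.2.1 hlt
    obtain ⟨s, hs⟩ : ∃ s : ℝ, s = 1 / 2 - (p : ℝ) := ⟨_, rfl⟩
    have hs0 : 0 < s := by rw [hs]; linarith
    rw [← hs] at hmE hm1 ⊢
    have hm0 : (0 : ℝ) < m := by exact_mod_cast hm
    obtain ⟨y, hy⟩ : ∃ y : ℝ, y = (m : ℝ) ^ (91 / 48 : ℝ) := ⟨_, rfl⟩
    obtain ⟨t, ht⟩ : ∃ t : ℝ, t = s ^ (91 / 36 : ℝ) := ⟨_, rfl⟩
    have hy0 : 0 < y := by rw [hy]; positivity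
    have ht0 : 0 < t := by rw [ht]; positivity
    have hyt : y * t = ((m : ℝ) * s ^ (4 / 3 : ℝ)) ^ (91 / 48 : ℝ) := by
      rw [hy, ht, pow_eq hs0.le, Real.mul_rpow hm0.le (by positivity)]
    have hytE : y * t ≤ E2 := by
      rw [hyt, hE2]
      exact Real.rpow_le_rpow (by positivity) hmE (by norm_num)
    rw [← hy] at hx
    rw [← ht]
    rcases le_or_gt (N : ℝ) y with hNy | hNy
    · have h2 : c / (2 * E2) * (N * t) ≤ c := by
        have h3 : (N : ℝ) * t ≤ E2 := (mul_le_mul_of_nonneg_right hNy ht0.le).trans hytE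
        calc c / (2 * E2) * (N * t) ≤ c / (2 * E2) * E2 :=
              mul_le_mul_of_nonneg_left h3 (by positivity)
          _ = c / 2 := by field_simp
          _ ≤ c := by linarith
      have h4 : Real.exp (-c) ≤ Real.exp (-(c / (2 * E2) * (N * t))) :=
        Real.exp_le_exp.mpr (by linarith)
      calc tl p N ≤ C1 * (N : ℝ) ^ (-(5 / 91 : ℝ)) := (tl_half hp N).trans hcr
        _ = C1 * Real.exp c * (N : ℝ) ^ (-(5 / 91 : ℝ)) * Real.exp (-c) := by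
            rw [Real.exp_neg]
            field_simp
        _ ≤ max (C1 * Real.exp c) (A * (2 / c)) * (N : ℝ) ^ (-(5 / 91 : ℝ)) *
              Real.exp (-(c / (2 * E2) * (N * t))) := by
            apply mul_le_mul _ h4 (Real.exp_pos _).le (by positivity)
            exact mul_le_mul_of_nonneg_right (le_max_left _ _) hNp.le
    · have h2 : tl p N ≤ A * (m : ℝ) ^ (-(5 / 48 : ℝ)) * Real.exp (-(c * (N / y))) :=
        vol_le p N _ (fun M => hx N hNy.le (boxE M))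
      obtain ⟨u, hu⟩ : ∃ u : ℝ, u = N / y := ⟨_, rfl⟩
      have hu1 : 1 ≤ u := by rw [hu, le_div_iff₀ hy0]; linarith
      rw [← hu] at h2
      have e1 : (m : ℝ) ^ (-(5 / 48 : ℝ)) = (N : ℝ) ^ (-(5 / 91 : ℝ)) * u ^ (5 / 91 : ℝ) := by
        have hNuy : (N : ℝ) = u * y := by rw [hu]; field_simp
        rw [hNuy, Real.mul_rpow (by linarith) hy0.le, mul_comm (u ^ _), mul_assoc,
          ← Real.rpow_add (by linarith), hy, ← Real.rpow_mul hm0.le]
        norm_num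
      have e2 : u ^ (5 / 91 : ℝ) ≤ 2 / c * Real.exp (c / 2 * u) := by
        have k1 : u ^ (5 / 91 : ℝ) ≤ u := by
          calc u ^ (5 / 91 : ℝ) ≤ u ^ (1 : ℝ) :=
                Real.rpow_le_rpow_of_exponent_le hu1 (by norm_num)
            _ = u := Real.rpow_one _
        have k2 : c / 2 * u ≤ Real.exp (c / 2 * u) := by
          linarith [Real.add_one_le_exp (c / 2 * u)]
        calc u ^ (5 / 91 : ℝ) ≤ u := k1
          _ = 2 / c * (c / 2 * u) := by field_simp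
          _ ≤ _ := mul_le_mul_of_nonneg_left k2 (by positivity)
      have e3 : c / (2 * E2) * (N * t) ≤ c / 2 * u := by
        have k3 : (N : ℝ) * t ≤ u * E2 := by
          have hNuy : (N : ℝ) = u * y := by rw [hu]; field_simp
          rw [hNuy, mul_assoc]
          exact mul_le_mul_of_nonneg_left hytE (by linarith)
        calc c / (2 * E2) * (N * t) ≤ c / (2 * E2) * (u * E2) :=
              mul_le_mul_of_nonneg_left k3 (by positivity)
          _ = c / 2 * u := by field_simp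
      have e4 : Real.exp (c / 2 * u) * Real.exp (-(c * u)) ≤
          Real.exp (-(c / (2 * E2) * (N * t))) := by
        rw [← Real.exp_add]
        apply Real.exp_le_exp.mpr
        linarith
      calc tl p N ≤ A * (m : ℝ) ^ (-(5 / 48 : ℝ)) * Real.exp (-(c * u)) := h2
        _ = A * (N : ℝ) ^ (-(5 / 91 : ℝ)) * (u ^ (5 / 91 : ℝ) * Real.exp (-(c * u))) := by
            rw [e1]; ring
        _ ≤ A * (N : ℝ) ^ (-(5 / 91 : ℝ)) *
              ((2 / c * Real.exp (c / 2 * u)) * Real.exp (-(c * u))) := by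
            apply mul_le_mul_of_nonneg_left _ (by positivity)
            exact mul_le_mul_of_nonneg_right e2 (Real.exp_pos _).le
        _ = A * (2 / c) * (N : ℝ) ^ (-(5 / 91 : ℝ)) *
              (Real.exp (c / 2 * u) * Real.exp (-(c * u))) := by ring
        _ ≤ max (C1 * Real.exp c) (A * (2 / c)) * (N : ℝ) ^ (-(5 / 91 : ℝ)) *
              Real.exp (-(c / (2 * E2) * (N * t))) := by
            apply mul_le_mul _ e4 (by positivity) (by positivity)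
            exact mul_le_mul_of_nonneg_right (le_max_right _ _) hNp.le

theorem lower : ∃ c C : ℝ, 0 < c ∧ 0 < C ∧ ∀ p : unitInterval, (1 / 4 : ℝ) ≤ p →
    (p : ℝ) ≤ 1 / 2 → ∀ N : ℕ, 1 ≤ N →
    c * (N : ℝ) ^ (-(5 / 91 : ℝ)) *
      Real.exp (-(C * (N * (1 / 2 - (p : ℝ)) ^ (91 / 36 : ℝ)))) ≤ tl p N := by
  obtain ⟨κ, a, C, hκ, ha, hC, hG⟩ := Pool.Agent.W424.NC.nearG
  obtain ⟨c1, hc1, hc11, hcount⟩ := count_p ha
  have hκ1 : κ ≤ 1 / 2 := by
    obtain ⟨m, -, -, hW, -⟩ := hG (1 / 2) 1 (by norm_num) le_rfl le_rfl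
    exact hW.kle
  obtain ⟨θ, hθ⟩ : ∃ θ : ℝ, θ = κ ^ 4 * c1 := ⟨_, rfl⟩
  have hθ0 : 0 < θ := by rw [hθ]; positivity
  have hθ1 : θ ≤ 1 := by
    rw [hθ]
    have : κ ^ 4 ≤ 1 := pow_le_one₀ hκ.le (by linarith)
    nlinarith
  obtain ⟨L, hL⟩ : ∃ L : ℝ, L = -Real.log θ := ⟨_, rfl⟩
  have hL0 : 0 ≤ L := by
    rw [hL]
    have := Real.log_nonpos hθ0.le hθ1
    linarith
  obtain ⟨G, hGd⟩ : ∃ G : ℝ, G = 2 / a * C ^ (91 / 48 : ℝ) := ⟨_, rfl⟩
  have hG0 : 0 < G := by rw [hGd]; positivity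
  obtain ⟨R, hR⟩ : ∃ R : ℝ, R = 4 * ((2 / a) ^ (48 / 91 : ℝ) + 1) := ⟨_, rfl⟩
  have hR0 : 0 < R := by rw [hR]; positivity
  refine ⟨a * R ^ (-(5 / 48 : ℝ)) * Real.exp (-(26 * L)), 8 * L * G + 1, by positivity,
    by positivity, fun p hp hp1 N hN => ?_⟩
  have hN' : (1 : ℝ) ≤ N := by exact_mod_cast hN
  have hN0 : (0 : ℝ) < N := by linarith
  -- the scale
  obtain ⟨x, hx⟩ : ∃ x : ℝ, x = (2 / a * N) ^ (48 / 91 : ℝ) := ⟨_, rfl⟩
  have hx0 : 0 < x := by rw [hx]; positivity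
  obtain ⟨n0, hn0⟩ : ∃ n0 : ℕ, n0 = ⌈x⌉₊ := ⟨_, rfl⟩
  have hn1 : 1 ≤ n0 := by rw [hn0]; exact Nat.ceil_pos.mpr hx0
  have hxn : x ≤ n0 := by rw [hn0]; exact Nat.le_ceil x
  have hnx : (n0 : ℝ) < x + 1 := by rw [hn0]; exact Nat.ceil_lt_add_one hx0.le
  obtain ⟨m, hm, hmn, hW, harm, hcase⟩ := hG p n0 hp hp1 hn1
  have hm0 : (0 : ℝ) < m := by exact_mod_cast hm
  have hmn' : (m : ℝ) ≤ n0 := by exact_mod_cast hmn
  obtain ⟨y, hy⟩ : ∃ y : ℝ, y = (m : ℝ) ^ (91 / 48 : ℝ) := ⟨_, rfl⟩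
  have hy0 : 0 < y := by rw [hy]; positivity
  obtain ⟨s, hs⟩ : ∃ s : ℝ, s = 1 / 2 - (p : ℝ) := ⟨_, rfl⟩
  have hs0 : 0 ≤ s := by rw [hs]; linarith
  rw [← hs] at hcase ⊢
  obtain ⟨t, ht⟩ : ∃ t : ℝ, t = s ^ (91 / 36 : ℝ) := ⟨_, rfl⟩
  have ht0 : 0 ≤ t := by rw [ht]; positivity
  rw [← ht]
  -- the number of cells
  obtain ⟨u, hu⟩ : ∃ u : ℝ, u = N / (a / 2 * y) := ⟨_, rfl⟩
  have hu0 : 0 < u := by rw [hu]; positivity
  have huN : u * (a / 2 * y) = N := by rw [hu]; field_simp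
  have hub : u ≤ 1 + G * (N * t) := by
    rcases hcase with hmn0 | h1
    · have h2 : 2 / a * N ≤ y := by
        rw [hy, hmn0]
        calc 2 / a * N = x ^ (91 / 48 : ℝ) := by
              rw [hx, ← Real.rpow_mul (by positivity)]
              norm_num
          _ ≤ _ := Real.rpow_le_rpow hx0.le hxn (by norm_num)
      have h3 : u ≤ 1 := by
        rw [hu, div_le_one (by positivity)]
        calc (N : ℝ) = a / 2 * (2 / a * N) := by field_simp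
          _ ≤ a / 2 * y := mul_le_mul_of_nonneg_left h2 (by positivity)
      have : 0 ≤ G * (N * t) := by positivity
      linarith
    · have h2 : 1 ≤ C ^ (91 / 48 : ℝ) * (y * t) := by
        have h3 : (1 : ℝ) ≤ (C * (m * s ^ (4 / 3 : ℝ))) ^ (91 / 48 : ℝ) :=
          Real.one_le_rpow h1 (by norm_num)
        rw [Real.mul_rpow hC.le (by positivity), Real.mul_rpow hm0.le (by positivity), ← hy,
          ← pow_eq hs0, ← ht] at h3
        exact h3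
      have h4 : u ≤ G * (N * t) := by
        rw [hu, div_le_iff₀ (by positivity), hGd]
        calc (N : ℝ) = N * 1 := (mul_one _).symm
          _ ≤ N * (C ^ (91 / 48 : ℝ) * (y * t)) := mul_le_mul_of_nonneg_left h2 hN0.le
          _ = _ := by field_simp
      linarith
  obtain ⟨i0, hi0⟩ : ∃ i0 : ℕ, i0 = ⌈Real.sqrt u⌉₊ := ⟨_, rfl⟩
  have hi1 : Real.sqrt u ≤ i0 := by rw [hi0]; exact Nat.le_ceil _
  have hi2 : (i0 : ℝ) < Real.sqrt u + 1 := by
    rw [hi0]; exact Nat.ceil_lt_add_one (Real.sqrt_nonneg u)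
  have hsq := Real.sq_sqrt hu0.le
  have hsn := Real.sqrt_nonneg u
  have hKu : u ≤ ((2 * i0 + 1 : ℕ) : ℝ) ^ 2 := by
    push_cast
    nlinarith
  have hKb : ((2 * i0 + 1 : ℕ) : ℝ) ^ 2 ≤ 8 * u + 18 := by
    push_cast
    have h2 : 2 * (i0 : ℝ) + 1 ≤ 2 * Real.sqrt u + 3 := by linarith
    have h3 : (2 * (i0 : ℝ) + 1) ^ 2 ≤ (2 * Real.sqrt u + 3) ^ 2 :=
      pow_le_pow_left₀ (by positivity) h2 2
    nlinarith [sq_nonneg (Real.sqrt u - 3 / 2), sq_nonneg (2 * Real.sqrt u - 3)]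
  obtain ⟨M, hM⟩ := grid_low (y := a / 2 * y) hm hW (i0 := i0) hc1 (by
    intro S hS
    rw [hy]
    exact hcount p m p.2.1 hp1 hm (harm (4 * m) (by omega) le_rfl) S hS)
  rw [← hθ] at hM
  have hxN : (N : ℝ) ≤ ((2 * i0 + 1 : ℕ) : ℝ) ^ 2 * (a / 2 * y) := by
    rw [← huN]
    exact mul_le_mul_of_nonneg_right hKu (by positivity)
  refine le_trans ?_ (hM.trans (vol_ge p N hxN M))
  -- the arm
  have harm4 : a * R ^ (-(5 / 48 : ℝ)) * (N : ℝ) ^ (-(5 / 91 : ℝ)) ≤ arm p (4 * m) := by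
    refine le_trans ?_ (harm (4 * m) (by omega) le_rfl)
    rw [mul_assoc]
    apply mul_le_mul_of_nonneg_left _ ha.le
    have e1 : R ^ (-(5 / 48 : ℝ)) * (N : ℝ) ^ (-(5 / 91 : ℝ)) =
        (R * (N : ℝ) ^ (48 / 91 : ℝ)) ^ (-(5 / 48 : ℝ)) := by
      rw [Real.mul_rpow hR0.le (by positivity), ← Real.rpow_mul hN0.le]
      norm_num
    rw [e1]
    apply Real.rpow_le_rpow_of_nonpos (by positivity) _ (by norm_num)
    push_cast
    have h2 : x = (2 / a) ^ (48 / 91 : ℝ) * (N : ℝ) ^ (48 / 91 : ℝ) := by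
      rw [hx, Real.mul_rpow (by positivity) hN0.le]
    have h3 : (1 : ℝ) ≤ (N : ℝ) ^ (48 / 91 : ℝ) := Real.one_le_rpow hN' (by norm_num)
    calc 4 * (m : ℝ) ≤ 4 * (x + 1) := by linarith
      _ ≤ 4 * ((2 / a) ^ (48 / 91 : ℝ) * (N : ℝ) ^ (48 / 91 : ℝ) + (N : ℝ) ^ (48 / 91 : ℝ)) := by
          rw [h2]; linarith
      _ = R * (N : ℝ) ^ (48 / 91 : ℝ) := by rw [hR]; ring
  -- the cost of the grid
  have hcost : Real.exp (-(26 * L)) * Real.exp (-((8 * L * G + 1) * (N * t))) ≤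
      θ ^ ((2 * i0 + 1) ^ 2) := by
    have e1 : θ ^ ((2 * i0 + 1) ^ 2) = Real.exp (-(L * ((2 * i0 + 1 : ℕ) : ℝ) ^ 2)) := by
      have : -(L * ((2 * i0 + 1 : ℕ) : ℝ) ^ 2) = (((2 * i0 + 1) ^ 2 : ℕ) : ℝ) * Real.log θ := by
        rw [hL]; push_cast; ring
      rw [this, Real.exp_nat_mul, Real.exp_log hθ0]
    rw [e1, ← Real.exp_add]
    apply Real.exp_le_exp.mpr
    have k1 : L * ((2 * i0 + 1 : ℕ) : ℝ) ^ 2 ≤ L * (8 * (1 + G * (N * t)) + 18) := by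
      apply mul_le_mul_of_nonneg_left _ hL0
      linarith
    have k2 : 0 ≤ (N : ℝ) * t := by positivity
    nlinarith
  obtain ⟨TK, hTK⟩ : ∃ TK : ℝ, TK = θ ^ ((2 * i0 + 1) ^ 2) := ⟨_, rfl⟩
  rw [← hTK] at hcost ⊢
  obtain ⟨AR, hAR⟩ : ∃ AR : ℝ, AR = arm p (4 * m) := ⟨_, rfl⟩
  have hAR0 : 0 ≤ AR := by rw [hAR]; exact arm_nonneg p.2.1 p.2.2 _
  rw [← hAR] at harm4 ⊢
  calc a * R ^ (-(5 / 48 : ℝ)) * Real.exp (-(26 * L)) * (N : ℝ) ^ (-(5 / 91 : ℝ)) *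
      Real.exp (-((8 * L * G + 1) * (N * t)))
      = (a * R ^ (-(5 / 48 : ℝ)) * (N : ℝ) ^ (-(5 / 91 : ℝ))) *
        (Real.exp (-(26 * L)) * Real.exp (-((8 * L * G + 1) * (N * t)))) := by ring
    _ ≤ AR * TK := mul_le_mul harm4 hcost (by positivity) hAR0

end Q291.CS
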