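import Pool.Agent.Q291.CS.Gen
import Pool.Agent.W424.NC.ArmUp

/-!
Blocks of the size of the correlation length: weights and their expectations.
-/

set_option autoImplicit false

namespace Q291.CS
open Finset H974 Pool.Agent.H160R2.CV Pool.Agent.H160R2.CV.Quad H362P Pool.Agent.Y244.PC
open Pool.Agent.TH981.LO (nm)

/-- the corner of the block -/
def cz (M : ℕ) (z : Ix) : Vtx := ((M : ℤ) * z 0, (M : ℤ) * z 1)

/-- the block -/
noncomputable def blk (M : ℕ) (z : Ix) : Finset Vtx :=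
  Finset.Ico ((M : ℤ) * z 0) ((M : ℤ) * z 0 + M) ×ˢ Finset.Ico ((M : ℤ) * z 1) ((M : ℤ) * z 1 + M)

/-- the index of the block of a vertex -/
def bid (M : ℕ) (v : Vtx) : Ix := ![v.1 / M, v.2 / M]

theorem nm_le {z : Ix} {k : ℕ} : nm z ≤ k ↔ (z 0).natAbs ≤ k ∧ (z 1).natAbs ≤ k := by
  unfold nm
  rw [Finset.sup_le_iff]
  simp [Fin.forall_fin_two]

theorem nm_eq (z : Ix) : nm z = max (z 0).natAbs (z 1).natAbs := by
  apply le_antisymm
  · rw [nm_le]; exact ⟨le_max_left _ _, le_max_right _ _⟩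
  · have := (nm_le (z := z) (k := nm z)).mp le_rfl
    exact max_le this.1 this.2

theorem mem_blk {M : ℕ} {z : Ix} {v : Vtx} : v ∈ blk M z ↔
    ((M : ℤ) * z 0 ≤ v.1 ∧ v.1 < (M : ℤ) * z 0 + M) ∧
    ((M : ℤ) * z 1 ≤ v.2 ∧ v.2 < (M : ℤ) * z 1 + M) := by
  unfold blk
  rw [Finset.mem_product, Finset.mem_Ico, Finset.mem_Ico]

theorem mem_blk_bid {M : ℕ} (hM : 1 ≤ M) (v : Vtx) : v ∈ blk M (bid M v) := by
  rw [mem_blk]
  have hM' : (0 : ℤ) < M := by exact_mod_cast hM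
  have e0 : (bid M v) 0 = v.1 / M := rfl
  have e1 : (bid M v) 1 = v.2 / M := rfl
  rw [e0, e1]
  refine ⟨⟨Int.mul_ediv_self_le hM'.ne', ?_⟩, Int.mul_ediv_self_le hM'.ne', ?_⟩
  · exact Int.lt_mul_ediv_self_add hM'
  · exact Int.lt_mul_ediv_self_add hM'

theorem bid_of_mem {M : ℕ} (hM : 1 ≤ M) {v : Vtx} {z : Ix} (h : v ∈ blk M z) : bid M v = z := by
  rw [mem_blk] at h
  have hM' : (0 : ℤ) < M := by exact_mod_cast hM
  funext i
  have key : ∀ a b : ℤ, (M : ℤ) * b ≤ a → a < (M : ℤ) * b + M → a / M = b := by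
    intro a b h1 h2
    rw [Int.ediv_eq_iff_of_pos hM']
    constructor <;> linarith
  fin_cases i
  · exact key _ _ h.1.1 h.1.2
  · exact key _ _ h.2.1 h.2.2

theorem blk_near {M : ℕ} {z : Ix} {v : Vtx} (h : v ∈ blk M z) : nv (v - cz M z) + 1 ≤ M := by
  rw [mem_blk] at h
  unfold nv cz
  simp only [Prod.fst_sub, Prod.snd_sub]
  omega

theorem nv_cz (M : ℕ) (z w : Ix) : nv (cz M z - cz M w) = M * nm (z - w) := by
  unfold nv cz
  rw [nm_eq]
  simp only [Prod.fst_sub, Prod.snd_sub, Pi.sub_apply]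
  rw [← mul_sub, ← mul_sub, Int.natAbs_mul, Int.natAbs_mul, Int.natAbs_natCast,
    Nat.mul_max_mul_left]

theorem cz_zero (M : ℕ) : cz M 0 = 0 := by
  unfold cz
  simp

theorem LA_iff {v : Vtx} {m : ℕ} {F : Finset Edg} : LA v m F ↔ Far v m F :=
  ⟨far_of_LA, LA_of_far le_rfl⟩

theorem Far_sh {v c : Vtx} {m : ℕ} {F : Finset Edg} : Far v m (sh c F) ↔ Far (v + c) m F := by
  constructor
  · rintro ⟨u, hu, hr⟩
    refine ⟨u + c, ?_, sh_reach.mp hr⟩
    rw [add_sub_add_right_eq_sub]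
    exact hu
  · rintro ⟨u, hu, hr⟩
    refine ⟨u - c, ?_, ?_⟩
    · have e : u - c - v = u - (v + c) := by rw [sub_sub, add_comm c v]
      rw [e]
      exact hu
    · rw [sh_reach, sub_add_cancel]
      exact hr

theorem VV_sh (M : ℕ) (z : Ix) (F : Finset Edg) :
    VV M (blk M z) F = VV M (blk M 0) (sh (cz M z) F) := by
  unfold VV
  apply Finset.sum_bij (fun y _ => y - cz M z)
  · intro y hy
    rw [mem_blk] at hy ⊢
    unfold cz
    simp only [Prod.fst_sub, Prod.snd_sub, Pi.zero_apply, mul_zero]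
    omega
  · intro y _ y' _ h
    exact sub_left_injective h
  · intro y hy
    refine ⟨y + cz M z, ?_, add_sub_cancel_right _ _⟩
    rw [mem_blk] at hy ⊢
    unfold cz
    simp only [Pi.zero_apply, mul_zero] at hy
    simp only [Prod.fst_add, Prod.snd_add]
    omega
  · intro y _
    apply ind_congr
    rw [LA_iff, LA_iff, Far_sh, sub_add_cancel]

/-- the annulus around the block is crossed -/
def Cs (M : ℕ) (z : Ix) (F : Finset Edg) : Prop :=
  ¬ Blk ((M - 1 : ℕ) : ℤ) ((2 * M - 1 : ℕ) : ℤ) (sh (cz M z) F)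

theorem Cs_inc (M : ℕ) (z : Ix) : IncA (Cs M z) := by
  intro F G h hF
  have h' := sh_mono (z := cz M z) h
  unfold Cs Blk at hF ⊢
  have k1 : ∀ a b c d : ℤ, LRc a b c d (sh (cz M z) F) → LRc a b c d (sh (cz M z) G) :=
    fun a b c d k => k.mono h'
  have k2 : ∀ a b c d : ℤ, TBc a b c d (sh (cz M z) F) → TBc a b c d (sh (cz M z) G) :=
    fun a b c d k => k.mono h'
  intro hG
  apply hF
  refine ⟨fun h => hG.1 ?_, fun h => hG.2 ?_⟩
  · rcases h with h | h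
    · exact Or.inl (k1 _ _ _ _ h)
    · exact Or.inr (k1 _ _ _ _ h)
  · rcases h with h | h
    · exact Or.inl (k2 _ _ _ _ h)
    · exact Or.inr (k2 _ _ _ _ h)

theorem Cs_loc {M : ℕ} (hM : 1 ≤ M) (z : Ix) : LocE (bo (cz M z) (2 * M - 1)) (Cs M z) := by
  intro F
  unfold Cs
  rw [sh_inter, sh_bo, Blk_local (by omega) (Pool.Agent.W424.NC.annE_sub (M - 1) (2 * M - 1))]

/-- the weight of a block -/
noncomputable def xz (M : ℕ) (lam : ℝ) (z : Ix) (F : Finset Edg) : ℝ :=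
  ind (Cs M z F) * Real.exp (lam * VV M (blk M z) F)

theorem xz_nonneg (M : ℕ) (lam : ℝ) (z : Ix) (F : Finset Edg) : 0 ≤ xz M lam z F :=
  mul_nonneg (ind_nonneg _) (Real.exp_pos _).le

theorem ind_pow (A : Prop) {k : ℕ} (hk : k ≠ 0) : ind A ^ k = ind A := by
  by_cases h : A
  · rw [ind_of h, one_pow]
  · rw [ind_not_of h, zero_pow hk]

theorem xz_pow (M : ℕ) (lam : ℝ) (z : Ix) (F : Finset Edg) :
    xz M lam z F ^ 25 = ind (Cs M z F) * Real.exp (25 * lam * VV M (blk M z) F) := by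
  unfold xz
  rw [mul_pow, ind_pow _ (by norm_num), ← Real.exp_nat_mul]
  push_cast
  ring_nf

theorem bo_blk {M : ℕ} {z : Ix} {y : Vtx} (h : y ∈ blk M z) :
    bo y M ⊆ bo (cz M z) (2 * M - 1) := by
  rw [mem_blk] at h
  unfold bo cz
  apply RE_subset <;> omega

theorem xz_dep {M : ℕ} (hM : 1 ≤ M) (lam : ℝ) (z : Ix) (F : Finset Edg) :
    xz M lam z F = xz M lam z (F ∩ bo (cz M z) (2 * M - 1)) := by
  unfold xz
  rw [ind_congr (Cs_loc hM z F), ← VV_dep (fun y hy => bo_blk hy)]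

theorem ok_le {p : ℝ} (h1 : p ≤ 1 / 2) : ∀ e : Edg, (fun _ : Edg => p) e ≤ P e := fun _ => h1

theorem Ex_le_half {p : ℝ} (h0 : 0 ≤ p) (h1 : p ≤ 1 / 2) (U : Finset Edg) {f : Finset Edg → ℝ}
    (hf : ∀ F G, F ⊆ G → f F ≤ f G) : Ex (fun _ => p) U f ≤ Ex P U f :=
  Ex_mono_param (okq h0 (by linarith)) w_ok (ok_le h1) (fun A B h _ => hf A B h)

theorem pr_Cs {p : ℝ} (h0 : 0 ≤ p) (h1 : p ≤ 1) {N : ℕ} (hN : 2 ≤ N)
    (he : eps (1 - p) N ≤ 1/100) (z : Ix) (U : Finset Edg) :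
    Pr (fun _ => p) U (Cs (2 ^ 8 * N) z) ≤ (1 / 4) ^ (2 ^ 8) := by
  obtain ⟨M, hM⟩ : ∃ M : ℕ, M = 2 ^ 8 * N := ⟨_, rfl⟩
  obtain ⟨U', hU'⟩ : ∃ U' : Finset Edg, U' = U ∪ bo (cz M z) (2 * M - 1) := ⟨_, rfl⟩
  have ok := okq h0 h1
  rw [← hM]
  have e1 : Pr (fun _ => p) U (Cs M z) ≤ Pr (fun _ => p) U' (Cs M z) := by
    apply Pr_mono_set ok
    · rw [hU']; exact Finset.subset_union_left
    · exact fun F G h _ => Cs_inc M z F G h
  have e2 : Pr (fun _ => p) U' (Cs M z) = Pr (fun _ => p) (sh (cz M z) U')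
      (fun F => ¬ Blk ((M - 1 : ℕ) : ℤ) ((2 * M - 1 : ℕ) : ℤ) F) :=
    Ex_sh p (cz M z) U' (fun F => ind (¬ Blk ((M - 1 : ℕ) : ℤ) ((2 * M - 1 : ℕ) : ℤ) F))
  have e3 : annE (M - 1) (2 * M - 1) ⊆ sh (cz M z) U' := by
    refine (Pool.Agent.W424.NC.annE_sub _ _).trans ?_
    rw [← sh_bo (cz M z) (2 * M - 1)]
    apply sh_mono
    rw [hU']
    exact Finset.subset_union_right
  rw [hM] at e3
  have e4 := Pool.Agent.W424.NC.pr_nblk_pow h0 h1 hN he 8 e3
  rw [← hM] at e4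
  rw [e2] at e1
  exact e1.trans e4

/-- the constants: `β = 1 / 1024` -/
theorem t_bound : ((1:ℝ) / 4) ^ (2 ^ 8) ≤ (((1:ℝ) / 1024) ^ 25 / 2) ^ 2 := by
  norm_num

theorem xz_far {p lam : ℝ} (h0 : 0 ≤ p) (h1 : p ≤ 1 / 2) (hl : 0 ≤ lam) {M : ℕ} (z : Ix)
    (U : Finset Edg)
    (hC : Pr (fun _ => p) U (Cs M z) ≤ (1 / 4) ^ (2 ^ 8))
    (hE : ∀ S : Finset Edg, Ex P S (fun F => Real.exp (50 * lam * VV M (blk M 0) F)) ≤ 2) :
    Ex (fun _ => p) U (fun F => xz M lam z F ^ 25) ≤ (1 / 1024) ^ 25 := by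
  obtain ⟨t, ht⟩ : ∃ t : ℝ, t = ((1:ℝ) / 1024) ^ 25 / 2 := ⟨_, rfl⟩
  have ht0 : 0 < t := by rw [ht]; positivity
  have ok := okq h0 (show p ≤ 1 by linarith)
  have hC' : Pr (fun _ => p) U (Cs M z) ≤ t ^ 2 := by
    rw [ht]
    exact hC.trans t_bound
  have hE' : Ex (fun _ => p) U (fun F => Real.exp (50 * lam * VV M (blk M z) F)) ≤ 2 := by
    refine (Ex_le_half h0 h1 U ?_).trans ?_
    · intro F G h
      apply Real.exp_le_exp.mpr
      exact mul_le_mul_of_nonneg_left (VV_mono M (blk M z) h) (by positivity)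
    · have e : Ex P U (fun F => Real.exp (50 * lam * VV M (blk M z) F)) =
          Ex P (sh (cz M z) U) (fun F => Real.exp (50 * lam * VV M (blk M 0) F)) := by
        rw [← show Ex P U (fun F => Real.exp (50 * lam * VV M (blk M 0) (sh (cz M z) F))) =
          Ex P (sh (cz M z) U) (fun F => Real.exp (50 * lam * VV M (blk M 0) F)) from
          Ex_sh (1 / 2) (cz M z) U (fun F => Real.exp (50 * lam * VV M (blk M 0) F))]
        apply Ex_congr
        intro F _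
        rw [VV_sh]
      rw [e]
      exact hE _
  have hpt : ∀ F : Finset Edg, xz M lam z F ^ 25 ≤
      t / 2 * Real.exp (50 * lam * VV M (blk M z) F) + 1 / (2 * t) * ind (Cs M z F) := by
    intro F
    rw [xz_pow]
    have e2 : Real.exp (50 * lam * VV M (blk M z) F) =
        Real.exp (25 * lam * VV M (blk M z) F) ^ 2 := by
      rw [← Real.exp_nat_mul]
      push_cast
      ring_nf
    rw [e2]
    obtain ⟨y, hy⟩ : ∃ y : ℝ, y = Real.exp (25 * lam * VV M (blk M z) F) := ⟨_, rfl⟩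
    rw [← hy]
    have hi := ind_sq (Cs M z F)
    have e3 : t / 2 * y ^ 2 + 1 / (2 * t) * ind (Cs M z F) - ind (Cs M z F) * y =
        1 / (2 * t) * (t * y - ind (Cs M z F)) ^ 2 := by
      have : (t * y - ind (Cs M z F)) ^ 2 =
          t ^ 2 * y ^ 2 - 2 * t * y * ind (Cs M z F) + ind (Cs M z F) := by
        nlinarith [hi]
      rw [this]
      field_simp
      ring
    have e4 : 0 ≤ 1 / (2 * t) * (t * y - ind (Cs M z F)) ^ 2 := by positivity
    linarith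
  have h2 := Ex_mono ok (S := U) (fun F _ => hpt F)
  rw [Ex_add, Ex_mul_left, Ex_mul_left] at h2
  have h3 : Ex (fun _ => p) U (fun F => ind (Cs M z F)) ≤ t ^ 2 := hC'
  have h4 : 1 / (2 * t) * Ex (fun _ => p) U (fun F => ind (Cs M z F)) ≤ t / 2 := by
    calc 1 / (2 * t) * Ex (fun _ => p) U (fun F => ind (Cs M z F)) ≤ 1 / (2 * t) * t ^ 2 :=
          mul_le_mul_of_nonneg_left h3 (by positivity)
      _ = t / 2 := by field_simp
  have h5 : t / 2 * Ex (fun _ => p) U (fun F => Real.exp (50 * lam * VV M (blk M z) F)) ≤ t := by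
    calc t / 2 * Ex (fun _ => p) U (fun F => Real.exp (50 * lam * VV M (blk M z) F)) ≤ t / 2 * 2 :=
          mul_le_mul_of_nonneg_left hE' (by positivity)
      _ = t := by ring
  have h6 : ((1:ℝ) / 1024) ^ 25 = 2 * t := by rw [ht]; ring
  rw [h6]
  linarith

theorem xz_near {p lam A0 : ℝ} (h0 : 0 ≤ p) (h1 : p ≤ 1 / 2) (hl : 0 ≤ lam) {M : ℕ} (z : Ix)
    (U : Finset Edg)
    (hE : Ex P U (fun F => ind (QQ M {0} F) * Real.exp (25 * lam * VV M (blk M z) F)) ≤ A0) :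
    Ex (fun _ => p) U (fun F => ind (QQ M {0} F) * xz M lam z F ^ 25) ≤ A0 := by
  have ok := okq h0 (show p ≤ 1 by linarith)
  have i1 : Ex (fun _ => p) U (fun F => ind (QQ M {0} F) * xz M lam z F ^ 25) ≤
      Ex (fun _ => p) U
        (fun F => ind (QQ M {0} F) * Real.exp (25 * lam * VV M (blk M z) F)) := by
    apply Ex_mono ok
    intro F _
    apply mul_le_mul_of_nonneg_left _ (ind_nonneg _)
    rw [xz_pow]
    have := ind_le_one (Cs M z F)
    nlinarith [Real.exp_pos (25 * lam * VV M (blk M z) F)]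
  refine i1.trans ((Ex_le_half h0 h1 U ?_).trans hE)
  intro F G h
  apply mul_le_mul (ind_mono (QQ_inc M {0} F G h)) _ (Real.exp_pos _).le (ind_nonneg _)
  apply Real.exp_le_exp.mpr
  exact mul_le_mul_of_nonneg_left (VV_mono M (blk M z) h) (by positivity)

end Q291.CS
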