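import Pool.Agent.Q291.CS.Mom2

/-!
Exponential moments of the number of the vertices of a box with a long arm.
-/

set_option autoImplicit false

namespace Q291.CS
open Finset H974 Pool.Agent.H160R2.CV Pool.Agent.H160R2.CV.Quad H362P Pool.Agent.Y244.PC
open Pool.Agent.H389R2.CD

theorem Ex_hasSum {E : Type*} [DecidableEq E] (p : E → ℝ) (S : Finset E)
    {g : ℕ → Finset E → ℝ} {f : Finset E → ℝ} (h : ∀ F, HasSum (fun k => g k F) (f F)) :
    HasSum (fun k => Ex p S (g k)) (Ex p S f) := by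
  unfold Ex
  exact hasSum_sum fun F _ => (h F).mul_left _

theorem exp_hasSum (x : ℝ) : HasSum (fun k : ℕ => x ^ k / k.factorial) (Real.exp x) := by
  rw [Real.exp_eq_exp_ℝ]
  exact NormedSpace.expSeries_div_hasSum_exp x

/-- factorial moments give exponential moments -/
theorem exp_moment {E : Type*} [DecidableEq E] {p : E → ℝ} {S : Finset E}
    {w V : Finset E → ℝ} {A A0 b s : ℝ} (hA : 0 ≤ A) (hb : 0 ≤ b) (hs : 0 ≤ s)
    (hsb : s * b ≤ 1 / 2) (h0 : Ex p S w ≤ A0)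
    (h : ∀ k : ℕ, Ex p S (fun F => w F * V F ^ (k + 1)) ≤ A * ((k + 1).factorial * b ^ (k + 1))) :
    Ex p S (fun F => w F * Real.exp (s * V F)) ≤ A0 + 2 * A * (s * b) := by
  have h1 : HasSum (fun k : ℕ => Ex p S (fun F => w F * ((s * V F) ^ k / k.factorial)))
      (Ex p S (fun F => w F * Real.exp (s * V F))) :=
    Ex_hasSum p S (fun F => (exp_hasSum (s * V F)).mul_left (w F))
  have h2 : ∀ k : ℕ, Ex p S (fun F => w F * ((s * V F) ^ k / k.factorial)) =
      s ^ k / k.factorial * Ex p S (fun F => w F * V F ^ k) := by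
    intro k
    rw [← Ex_mul_left]
    apply Ex_congr
    intro F _
    rw [mul_pow]
    ring
  set r : ℝ := s * b with hr
  have hr0 : 0 ≤ r := mul_nonneg hs hb
  have hr1 : r < 1 := by linarith
  have h3 : HasSum (fun k : ℕ => A * r * r ^ k) (A * r * (1 - r)⁻¹) :=
    (hasSum_geometric_of_lt_one hr0 hr1).mul_left _
  have h4 := (hasSum_nat_add_iff' 1).mpr h1
  have h5 : ∀ k : ℕ, Ex p S (fun F => w F * ((s * V F) ^ (k + 1) / (k + 1).factorial)) ≤
      A * r * r ^ k := by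
    intro k
    rw [h2]
    have hf : (0 : ℝ) < (k + 1).factorial := by positivity
    calc s ^ (k + 1) / (k + 1).factorial * Ex p S (fun F => w F * V F ^ (k + 1))
        ≤ s ^ (k + 1) / (k + 1).factorial * (A * ((k + 1).factorial * b ^ (k + 1))) :=
          mul_le_mul_of_nonneg_left (h k) (by positivity)
      _ = A * r * r ^ k := by
          rw [hr, mul_pow]
          field_simp
          ring
  have h6 := hasSum_le h5 h4 h3
  rw [Finset.sum_range_one, h2 0] at h6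
  have e0 : s ^ 0 / (Nat.factorial 0 : ℝ) * Ex p S (fun F => w F * V F ^ 0) = Ex p S w := by
    rw [pow_zero, Nat.factorial_zero, Nat.cast_one, div_one, one_mul]
    apply Ex_congr
    intro F _
    rw [pow_zero, mul_one]
  rw [e0] at h6
  have h7 : (1 - r)⁻¹ ≤ 2 := by
    rw [inv_le_comm₀ (by linarith) (by norm_num)]
    linarith
  have h8 : A * r * (1 - r)⁻¹ ≤ A * r * 2 := mul_le_mul_of_nonneg_left h7 (by positivity)
  linarith

theorem ar_upper : ∃ C : ℝ, 0 < C ∧ ∀ m : ℕ, 1 ≤ m → ar (8 * m) ≤ C * (m : ℝ) ^ (-(5 / 48 : ℝ)) := by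
  obtain ⟨c, C, hc, hC, h⟩ := Pool.Agent.H160R2.SA.arSharp
  refine ⟨C, hC, fun m hm => (h (8 * m) (by omega)).2.trans ?_⟩
  apply mul_le_mul_of_nonneg_left _ hC.le
  have hm0 : (0 : ℝ) < m := by exact_mod_cast hm
  apply Real.rpow_le_rpow_of_nonpos hm0 _ (by norm_num)
  push_cast
  linarith

theorem pow33 {m : ℕ} (hm : 1 ≤ m) {a : ℝ} (_ha : 0 ≤ a) (ha2 : a ≤ 2) :
    (((33 * m : ℕ) : ℝ)) ^ a ≤ 33 ^ 2 * (m : ℝ) ^ a := by
  have hm0 : (0 : ℝ) < m := by exact_mod_cast hm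
  push_cast
  rw [Real.mul_rpow (by norm_num) hm0.le]
  apply mul_le_mul_of_nonneg_right _ (by positivity)
  rw [← Real.rpow_natCast (33 : ℝ) 2]
  apply Real.rpow_le_rpow_of_exponent_le (by norm_num)
  push_cast
  linarith

theorem pow_fac (k : ℕ) : (((k + 2 : ℕ) : ℝ) ^ (5 / 96 : ℝ)) ^ k ≤
    Real.exp 2 * (k.factorial * Real.exp 1 ^ k) := by
  have h1 : (1 : ℝ) ≤ ((k + 2 : ℕ) : ℝ) := by push_cast; linarith [(Nat.cast_nonneg k : (0:ℝ) ≤ k)]
  have h2 : ((k + 2 : ℕ) : ℝ) ^ (5 / 96 : ℝ) ≤ ((k + 2 : ℕ) : ℝ) := by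
    calc ((k + 2 : ℕ) : ℝ) ^ (5 / 96 : ℝ) ≤ ((k + 2 : ℕ) : ℝ) ^ (1 : ℝ) :=
          Real.rpow_le_rpow_of_exponent_le h1 (by norm_num)
      _ = _ := Real.rpow_one _
  have h3 := Real.pow_div_factorial_le_exp (((k + 2 : ℕ) : ℝ)) (by linarith) k
  rw [div_le_iff₀ (by positivity)] at h3
  calc (((k + 2 : ℕ) : ℝ) ^ (5 / 96 : ℝ)) ^ k ≤ ((k + 2 : ℕ) : ℝ) ^ k :=
        pow_le_pow_left₀ (by positivity) h2 k
    _ ≤ Real.exp ((k + 2 : ℕ) : ℝ) * k.factorial := h3
    _ = _ := by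
        push_cast
        rw [Real.exp_add, ← Real.exp_nat_mul]
        ring_nf

theorem pow_split {m : ℕ} (hm : 1 ≤ m) :
    (m : ℝ) ^ (43 / 24 : ℝ) = (m : ℝ) ^ (-(5 / 48 : ℝ)) * (m : ℝ) ^ (91 / 48 : ℝ) := by
  have hm0 : (0 : ℝ) < m := by exact_mod_cast hm
  rw [← Real.rpow_add hm0]
  norm_num

/-- moments on the event that `0` has a long arm -/
theorem mom_arm : ∃ A b : ℝ, 0 < A ∧ 0 < b ∧ ∀ m : ℕ, 1 ≤ m → ∀ S : Finset Edg,
    ∀ B : Finset Vtx, (∀ x ∈ B, nv x ≤ 24 * m) →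
    Pr P S (QQ (8 * m) {0}) ≤ A * (m : ℝ) ^ (-(5 / 48 : ℝ)) ∧ ∀ k : ℕ,
    Ex P S (fun F => ind (QQ (8 * m) {0} F) * VV (8 * m) B F ^ (k + 1)) ≤
      A * (m : ℝ) ^ (-(5 / 48 : ℝ)) *
        ((k + 1).factorial * (b * (m : ℝ) ^ (91 / 48 : ℝ)) ^ (k + 1)) := by
  obtain ⟨D, hD, h⟩ := Ex_VV_le
  obtain ⟨C1, hC1, h1⟩ := step_sum Pool.Agent.H160R2.SA.arSharp
  obtain ⟨C2, hC2, h2⟩ := sum_two
  obtain ⟨C3, hC3, h3⟩ := ar_upper
  obtain ⟨b, hb⟩ : ∃ b : ℝ, b = C1 * 33 ^ 2 * Real.exp 1 + 1 := ⟨_, rfl⟩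
  have hb1 : 1 ≤ b := by rw [hb]; linarith [(by positivity : (0:ℝ) < C1 * 33 ^ 2 * Real.exp 1)]
  have hb0 : 0 < b := by linarith
  refine ⟨D * C2 * 33 ^ 2 * Real.exp 2 + C3, b, by positivity, hb0, fun m hm S B hB => ⟨?_, ?_⟩⟩
  · have hm0 : (0 : ℝ) < m := by exact_mod_cast hm
    have e : Pr P S (QQ (8 * m) {0}) = Pr P S (LA 0 (8 * m)) := by
      apply Pr_congr
      intro F _
      unfold QQ
      simp
    rw [e]
    refine (pr_LA S 0 (8 * m)).trans ((h3 m hm).trans ?_)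
    apply mul_le_mul_of_nonneg_right _ (by positivity)
    linarith [(by positivity : (0:ℝ) < D * C2 * 33 ^ 2 * Real.exp 2)]
  · intro k
    have hm0 : (0 : ℝ) < m := by exact_mod_cast hm
    have h0 : ∀ x ∈ ({0} : Finset Vtx), nv x ≤ 24 * m := by
      intro x hx
      rw [Finset.mem_singleton] at hx
      rw [hx]
      simp [nv]
    refine (h m hm S B hB (k + 1) {0} h0).trans ?_
    obtain ⟨n, hn⟩ : ∃ n : ℕ, n = 33 * m := ⟨_, rfl⟩
    rw [← hn]
    have hn1 : 1 ≤ n := by omega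
    obtain ⟨J, hJ⟩ : ∃ J : ℝ, J = C1 * ((n : ℝ) ^ (91 / 48 : ℝ) *
        ((k + 2 : ℕ) : ℝ) ^ (5 / 96 : ℝ)) := ⟨_, rfl⟩
    have hJ0 : 0 ≤ J := by rw [hJ]; positivity
    have hW : Pool.Agent.Y244.PC.W n (k + 1) {0} ≤ J ^ k * (C2 * (n : ℝ) ^ (43 / 24 : ℝ)) := by
      show ∑ x ∈ bx n, Pool.Agent.Y244.PC.W n k (insert x {0}) ≤ _
      have h00 : (0 : Vtx) ∈ bx n := by
        rw [VolAux.mem_bx]
        simp [nv]
      calc ∑ x ∈ bx n, Pool.Agent.Y244.PC.W n k (insert x {0})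
          ≤ ∑ x ∈ bx n, J ^ k * PX (insert x {0}) := by
            apply Finset.sum_le_sum
            intro x hx
            rw [hJ]
            apply W_bound hC1 hn1 (h1 n hn1) k _ (k + 2) (Finset.insert_nonempty _ _)
            · exact Finset.insert_subset hx (Finset.singleton_subset_iff.mpr h00)
            · have := Finset.card_insert_le x ({0} : Finset Vtx)
              rw [Finset.card_singleton] at this
              omega
        _ = J ^ k * ∑ x ∈ bx n, PX (insert x {0}) := by rw [Finset.mul_sum]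
        _ ≤ _ := mul_le_mul_of_nonneg_left (h2 n hn1) (by positivity)
    have p1 := pow33 hm (a := 91 / 48) (by norm_num) (by norm_num)
    have p2 := pow33 hm (a := 43 / 24) (by norm_num) (by norm_num)
    rw [← hn] at p1 p2
    have p3 := pow_fac k
    have hJk : J ^ k ≤ (C1 * 33 ^ 2 * (m : ℝ) ^ (91 / 48 : ℝ)) ^ k *
        (Real.exp 2 * (k.factorial * Real.exp 1 ^ k)) := by
      have e1 : J = (C1 * (n : ℝ) ^ (91 / 48 : ℝ)) * ((k + 2 : ℕ) : ℝ) ^ (5 / 96 : ℝ) := by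
        rw [hJ]; ring
      rw [e1, mul_pow]
      apply mul_le_mul _ p3 (by positivity) (by positivity)
      apply pow_le_pow_left₀ (by positivity)
      calc C1 * (n : ℝ) ^ (91 / 48 : ℝ) ≤ C1 * (33 ^ 2 * (m : ℝ) ^ (91 / 48 : ℝ)) :=
            mul_le_mul_of_nonneg_left p1 hC1.le
        _ = _ := by ring
    calc D * Pool.Agent.Y244.PC.W n (k + 1) {0}
        ≤ D * (J ^ k * (C2 * (n : ℝ) ^ (43 / 24 : ℝ))) := mul_le_mul_of_nonneg_left hW hD.le
      _ ≤ D * (((C1 * 33 ^ 2 * (m : ℝ) ^ (91 / 48 : ℝ)) ^ k *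
            (Real.exp 2 * (k.factorial * Real.exp 1 ^ k))) *
            (C2 * (33 ^ 2 * (m : ℝ) ^ (43 / 24 : ℝ)))) := by
          apply mul_le_mul_of_nonneg_left _ hD.le
          apply mul_le_mul hJk _ (by positivity) (by positivity)
          exact mul_le_mul_of_nonneg_left p2 hC2.le
      _ = (D * C2 * 33 ^ 2 * Real.exp 2) * (m : ℝ) ^ (-(5 / 48 : ℝ)) *
            (k.factorial * ((C1 * 33 ^ 2 * Real.exp 1 * (m : ℝ) ^ (91 / 48 : ℝ)) ^ k *
              (m : ℝ) ^ (91 / 48 : ℝ))) := by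
          rw [pow_split hm]
          simp only [mul_pow]
          ring
      _ ≤ (D * C2 * 33 ^ 2 * Real.exp 2 + C3) * (m : ℝ) ^ (-(5 / 48 : ℝ)) *
            ((k + 1).factorial * (b * (m : ℝ) ^ (91 / 48 : ℝ)) ^ (k + 1)) := by
          apply mul_le_mul
          · apply mul_le_mul_of_nonneg_right _ (by positivity)
            linarith
          · apply mul_le_mul
            · exact_mod_cast Nat.factorial_le (Nat.le_succ k)
            · rw [pow_succ (b * (m : ℝ) ^ (91 / 48 : ℝ)) k]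
              apply mul_le_mul
              · apply pow_le_pow_left₀ (by positivity)
                apply mul_le_mul_of_nonneg_right _ (by positivity)
                rw [hb]
                linarith
              · calc (m : ℝ) ^ (91 / 48 : ℝ) = 1 * (m : ℝ) ^ (91 / 48 : ℝ) := (one_mul _).symm
                  _ ≤ _ := mul_le_mul_of_nonneg_right hb1 (by positivity)
              · positivity
              · positivity
            · positivity
            · positivity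
          · positivity
          · positivity

/-- moments without condition -/
theorem mom_free : ∃ A b : ℝ, 0 < A ∧ 0 < b ∧ ∀ m : ℕ, 1 ≤ m → ∀ S : Finset Edg,
    ∀ B : Finset Vtx, (∀ x ∈ B, nv x ≤ 24 * m) → ∀ k : ℕ,
    Ex P S (fun F => 1 * VV (8 * m) B F ^ (k + 1)) ≤
      A * ((k + 1).factorial * (b * (m : ℝ) ^ (91 / 48 : ℝ)) ^ (k + 1)) := by
  obtain ⟨D, hD, h⟩ := Ex_VV_le
  obtain ⟨C1, hC1, h1⟩ := W_empty Pool.Agent.H160R2.SA.arSharp
  obtain ⟨C3, hC3, h3⟩ := ar_upper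
  obtain ⟨b, hb⟩ : ∃ b : ℝ, b = C1 * 33 ^ 2 * Real.exp 1 + 49 ^ 2 * C3 + 1 := ⟨_, rfl⟩
  have hbp : (0:ℝ) < C1 * 33 ^ 2 * Real.exp 1 := by positivity
  have hbq : (0:ℝ) < 49 ^ 2 * C3 := by positivity
  have hb1 : 1 ≤ b := by rw [hb]; linarith
  have hb0 : 0 < b := by linarith
  refine ⟨D * C1 * 33 ^ 4 * Real.exp 2 + 1, b, by positivity, hb0, fun m hm S B hB k => ?_⟩
  have hm1 : (1 : ℝ) ≤ m := by exact_mod_cast hm
  have hm0 : (0 : ℝ) < m := by linarith
  have hA1 : (1 : ℝ) ≤ D * C1 * 33 ^ 4 * Real.exp 2 + 1 := by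
    linarith [(by positivity : (0:ℝ) < D * C1 * 33 ^ 4 * Real.exp 2)]
  cases k with
  | zero =>
    have e1 : Ex P S (fun F => 1 * VV (8 * m) B F ^ (0 + 1)) = ∑ y ∈ B, Pr P S (LA y (8 * m)) := by
      have : (fun F => 1 * VV (8 * m) B F ^ (0 + 1)) =
          fun F => ∑ y ∈ B, ind (LA y (8 * m) F) := by
        funext F
        rw [one_mul, zero_add, pow_one]
        rfl
      rw [this, Ex_sum]
      rfl
    have hcard : (B.card : ℝ) ≤ 49 ^ 2 * (m : ℝ) ^ 2 := by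
      have hsub : B ⊆ bx (24 * m) := fun x hx => VolAux.mem_bx.mpr (hB x hx)
      have c1 : (B.card : ℝ) ≤ ((bx (24 * m)).card : ℝ) := by exact_mod_cast Finset.card_le_card hsub
      rw [w_card_bx] at c1
      push_cast at c1
      nlinarith
    have e2 : (m : ℝ) ^ 2 * (m : ℝ) ^ (-(5 / 48 : ℝ)) = (m : ℝ) ^ (91 / 48 : ℝ) := by
      rw [← Real.rpow_natCast (m : ℝ) 2, ← Real.rpow_add hm0]
      norm_num
    rw [e1]
    calc ∑ y ∈ B, Pr P S (LA y (8 * m)) ≤ ∑ y ∈ B, C3 * (m : ℝ) ^ (-(5 / 48 : ℝ)) :=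
          Finset.sum_le_sum fun y _ => (pr_LA S y (8 * m)).trans (h3 m hm)
      _ = B.card * (C3 * (m : ℝ) ^ (-(5 / 48 : ℝ))) := by rw [Finset.sum_const, nsmul_eq_mul]
      _ ≤ (49 ^ 2 * (m : ℝ) ^ 2) * (C3 * (m : ℝ) ^ (-(5 / 48 : ℝ))) :=
          mul_le_mul_of_nonneg_right hcard (by positivity)
      _ = 49 ^ 2 * C3 * (m : ℝ) ^ (91 / 48 : ℝ) := by rw [← e2]; ring
      _ ≤ b * (m : ℝ) ^ (91 / 48 : ℝ) := by
          apply mul_le_mul_of_nonneg_right _ (by positivity)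
          rw [hb]; linarith
      _ ≤ _ := by
          rw [zero_add, Nat.factorial_one, pow_one, Nat.cast_one, one_mul]
          exact le_mul_of_one_le_left (by positivity) hA1
  | succ k =>
    have e1 : Ex P S (fun F => 1 * VV (8 * m) B F ^ (k + 1 + 1)) =
        Ex P S (fun F => ind (QQ (8 * m) ∅ F) * VV (8 * m) B F ^ (k + 2)) := by
      apply Ex_congr
      intro F _
      rw [ind_of (show QQ (8 * m) ∅ F from fun x hx => absurd hx (Finset.notMem_empty x))]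
    rw [e1]
    refine (h m hm S B hB (k + 2) ∅ (fun x hx => absurd hx (Finset.notMem_empty x))).trans ?_
    have hn1 : 1 ≤ 33 * m := by omega
    have p1 := pow33 hm (a := 91 / 48) (by norm_num) (by norm_num)
    have p3 := pow_fac k
    have e91 : (((33 * m : ℕ) : ℝ)) ^ (91 / 24 : ℝ) = ((((33 * m : ℕ) : ℝ)) ^ (91 / 48 : ℝ)) ^ 2 := by
      rw [← Real.rpow_natCast ((((33 * m : ℕ) : ℝ)) ^ (91 / 48 : ℝ)) 2, ← Real.rpow_mul (by positivity)]
      norm_num
    have hJk : (C1 * (((33 * m : ℕ) : ℝ) ^ (91 / 48 : ℝ) * ((k + 2 : ℕ) : ℝ) ^ (5 / 96 : ℝ))) ^ k ≤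
        (C1 * 33 ^ 2 * (m : ℝ) ^ (91 / 48 : ℝ)) ^ k *
        (Real.exp 2 * (k.factorial * Real.exp 1 ^ k)) := by
      have e1 : C1 * (((33 * m : ℕ) : ℝ) ^ (91 / 48 : ℝ) * ((k + 2 : ℕ) : ℝ) ^ (5 / 96 : ℝ)) =
          (C1 * ((33 * m : ℕ) : ℝ) ^ (91 / 48 : ℝ)) * ((k + 2 : ℕ) : ℝ) ^ (5 / 96 : ℝ) := by ring
      rw [e1, mul_pow]
      apply mul_le_mul _ p3 (by positivity) (by positivity)
      apply pow_le_pow_left₀ (by positivity)
      calc C1 * ((33 * m : ℕ) : ℝ) ^ (91 / 48 : ℝ) ≤ C1 * (33 ^ 2 * (m : ℝ) ^ (91 / 48 : ℝ)) :=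
            mul_le_mul_of_nonneg_left p1 hC1.le
        _ = _ := by ring
    calc D * Pool.Agent.Y244.PC.W (33 * m) (k + 2) ∅
        ≤ D * (C1 * ((33 * m : ℕ) : ℝ) ^ (91 / 24 : ℝ) *
            (C1 * (((33 * m : ℕ) : ℝ) ^ (91 / 48 : ℝ) * ((k + 2 : ℕ) : ℝ) ^ (5 / 96 : ℝ))) ^ k) :=
          mul_le_mul_of_nonneg_left (h1 (33 * m) hn1 k) hD.le
      _ ≤ D * (C1 * (33 ^ 2 * (m : ℝ) ^ (91 / 48 : ℝ)) ^ 2 *
            ((C1 * 33 ^ 2 * (m : ℝ) ^ (91 / 48 : ℝ)) ^ k *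
              (Real.exp 2 * (k.factorial * Real.exp 1 ^ k)))) := by
          apply mul_le_mul_of_nonneg_left _ hD.le
          apply mul_le_mul _ hJk (by positivity) (by positivity)
          apply mul_le_mul_of_nonneg_left _ hC1.le
          rw [e91]
          exact pow_le_pow_left₀ (by positivity) p1 2
      _ = (D * C1 * 33 ^ 4 * Real.exp 2) *
            (k.factorial * ((C1 * 33 ^ 2 * Real.exp 1 * (m : ℝ) ^ (91 / 48 : ℝ)) ^ k *
              ((m : ℝ) ^ (91 / 48 : ℝ)) ^ 2)) := by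
          simp only [mul_pow]
          ring
      _ ≤ (D * C1 * 33 ^ 4 * Real.exp 2 + 1) *
            ((k + 1 + 1).factorial * (b * (m : ℝ) ^ (91 / 48 : ℝ)) ^ (k + 1 + 1)) := by
          apply mul_le_mul
          · linarith
          · apply mul_le_mul
            · exact_mod_cast Nat.factorial_le (by omega)
            · rw [show k + 1 + 1 = k + 2 from rfl, pow_add _ k 2]
              apply mul_le_mul
              · apply pow_le_pow_left₀ (by positivity)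
                apply mul_le_mul_of_nonneg_right _ (by positivity)
                rw [hb]
                linarith
              · apply pow_le_pow_left₀ (by positivity)
                calc (m : ℝ) ^ (91 / 48 : ℝ) = 1 * (m : ℝ) ^ (91 / 48 : ℝ) := (one_mul _).symm
                  _ ≤ _ := mul_le_mul_of_nonneg_right hb1 (by positivity)
              · positivity
              · positivity
            · positivity
            · positivity
          · positivity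
          · positivity

/-- exponential moments -/
theorem expo : ∃ A c : ℝ, 0 < A ∧ 0 < c ∧ ∀ m : ℕ, 1 ≤ m → ∀ S : Finset Edg,
    ∀ B : Finset Vtx, (∀ x ∈ B, nv x ≤ 24 * m) → ∀ s : ℝ, 0 ≤ s →
    s * (m : ℝ) ^ (91 / 48 : ℝ) ≤ c →
    Ex P S (fun F => ind (QQ (8 * m) {0} F) * Real.exp (s * VV (8 * m) B F)) ≤
      A * (m : ℝ) ^ (-(5 / 48 : ℝ)) ∧
    Ex P S (fun F => Real.exp (s * VV (8 * m) B F)) ≤ 2 := by
  obtain ⟨A1, b1, hA1, hb1, h1⟩ := mom_arm
  obtain ⟨A2, b2, hA2, hb2, h2⟩ := mom_free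
  refine ⟨2 * A1, min (1 / (2 * b1)) (min (1 / (2 * b2)) (1 / (2 * A2 * b2))), by positivity,
    by positivity, ?_⟩
  intro m hm S B hB s hs hsc
  have hm0 : (0 : ℝ) < m := by exact_mod_cast hm
  obtain ⟨y, hy⟩ : ∃ y : ℝ, y = (m : ℝ) ^ (91 / 48 : ℝ) := ⟨_, rfl⟩
  have hy0 : 0 < y := by rw [hy]; positivity
  rw [← hy] at hsc
  have k1 : s * (b1 * y) ≤ 1 / 2 := by
    have : s * y ≤ 1 / (2 * b1) := hsc.trans (min_le_left _ _)
    calc s * (b1 * y) = b1 * (s * y) := by ring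
      _ ≤ b1 * (1 / (2 * b1)) := mul_le_mul_of_nonneg_left this hb1.le
      _ = 1 / 2 := by field_simp
  have k2 : s * (b2 * y) ≤ 1 / 2 := by
    have : s * y ≤ 1 / (2 * b2) := hsc.trans ((min_le_right _ _).trans (min_le_left _ _))
    calc s * (b2 * y) = b2 * (s * y) := by ring
      _ ≤ b2 * (1 / (2 * b2)) := mul_le_mul_of_nonneg_left this hb2.le
      _ = 1 / 2 := by field_simp
  have k3 : 2 * A2 * (s * (b2 * y)) ≤ 1 := by
    have : s * y ≤ 1 / (2 * A2 * b2) := hsc.trans ((min_le_right _ _).trans (min_le_right _ _))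
    calc 2 * A2 * (s * (b2 * y)) = 2 * A2 * b2 * (s * y) := by ring
      _ ≤ 2 * A2 * b2 * (1 / (2 * A2 * b2)) := mul_le_mul_of_nonneg_left this (by positivity)
      _ = 1 := by field_simp
  constructor
  · obtain ⟨h3, h4⟩ := h1 m hm S B hB
    rw [← hy] at h4
    have h5 := exp_moment (p := P) (S := S) (w := fun F => ind (QQ (8 * m) {0} F))
      (V := VV (8 * m) B) (A := A1 * (m : ℝ) ^ (-(5 / 48 : ℝ)))
      (A0 := A1 * (m : ℝ) ^ (-(5 / 48 : ℝ))) (by positivity)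
      (by positivity) hs k1 h3 h4
    refine h5.trans ?_
    have h6 : 0 ≤ A1 * (m : ℝ) ^ (-(5 / 48 : ℝ)) := by positivity
    nlinarith
  · have h4 := h2 m hm S B hB
    rw [← hy] at h4
    have h5 := exp_moment (p := P) (S := S) (w := fun _ => 1)
      (V := VV (8 * m) B) (A := A2) (A0 := 1) hA2.le
      (by positivity) hs k2 (Ex_const _ _ _).le h4
    have e : Ex P S (fun F => Real.exp (s * VV (8 * m) B F)) =
        Ex P S (fun F => 1 * Real.exp (s * VV (8 * m) B F)) := by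
      apply Ex_congr
      intro F _
      rw [one_mul]
    rw [e]
    linarith

end Q291.CS
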