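import Pool.Agent.Q291.CS.Exm
import Pool.Agent.TH429.J468

/-!
General lemmas: products of local functions, colour classes, sums over animals.
-/

set_option autoImplicit false

namespace Q291.CS
open Finset H974 Pool.Agent.H160R2.CV Pool.Agent.H160R2.CV.Quad H362P Pool.Agent.Y244.PC

theorem Ex_sh (q : ℝ) (z : Vtx) (S : Finset Edg) (f : Finset Edg → ℝ) :
    Ex (fun _ => q) S (fun F => f (sh z F)) = Ex (fun _ => q) (sh z S) f :=
  (Ex_map (fun _ => q) (trl (-z.1) (-z.2)).φ.toEmbedding S f).symm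

/-- product of a function and of functions of expectation at most one, on disjoint sets -/
theorem prod_far {E : Type*} [DecidableEq E] {p : E → ℝ} (hp : Ok p) {U : Finset E} {ι : Type*}
    [DecidableEq ι] (I : Finset ι) (f0 : Finset E → ℝ) (T0 : Finset E) (f : ι → Finset E → ℝ)
    (T : ι → Finset E)
    (h0 : ∀ F, f0 F = f0 (F ∩ T0)) (hf : ∀ i ∈ I, ∀ F, f i F = f i (F ∩ T i))
    (hd0 : ∀ i ∈ I, Disjoint T0 (T i))
    (hd : ∀ i ∈ I, ∀ j ∈ I, i ≠ j → Disjoint (T i) (T j))
    (hn0 : ∀ F, 0 ≤ f0 F) (hn : ∀ i ∈ I, ∀ F, 0 ≤ f i F)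
    (h1 : ∀ i ∈ I, Ex p U (f i) ≤ 1) {A : ℝ} (hA : Ex p U f0 ≤ A) :
    Ex p U (fun F => f0 F * ∏ i ∈ I, f i F) ≤ A := by
  classical
  induction I using Finset.induction_on with
  | empty =>
    simp only [Finset.prod_empty, mul_one]
    exact hA
  | insert a I ha ih =>
    have ih' := ih (fun i hi => hf i (Finset.mem_insert_of_mem hi))
      (fun i hi => hd0 i (Finset.mem_insert_of_mem hi))
      (fun i hi j hj => hd i (Finset.mem_insert_of_mem hi) j (Finset.mem_insert_of_mem hj))
      (fun i hi => hn i (Finset.mem_insert_of_mem hi))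
      (fun i hi => h1 i (Finset.mem_insert_of_mem hi))
    have e : Ex p U (fun F => f0 F * ∏ i ∈ insert a I, f i F) =
        Ex p U (fun F => (f0 F * ∏ i ∈ I, f i F) * f a F) := by
      apply Ex_congr
      intro F _
      rw [Finset.prod_insert ha]
      ring
    have hind : Ex p U (fun F => (f0 F * ∏ i ∈ I, f i F) * f a F) =
        Ex p U (fun F => f0 F * ∏ i ∈ I, f i F) * Ex p U (f a) := by
      apply Ex_mul_indep (S := U ∩ (T0 ∪ I.biUnion T)) (T := U ∩ T a) Finset.inter_subset_left
        Finset.inter_subset_left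
      · apply Finset.disjoint_of_subset_left Finset.inter_subset_right
        apply Finset.disjoint_of_subset_right Finset.inter_subset_right
        rw [Finset.disjoint_union_left, Finset.disjoint_biUnion_left]
        refine ⟨hd0 a (Finset.mem_insert_self _ _), fun i hi => ?_⟩
        apply hd i (Finset.mem_insert_of_mem hi) a (Finset.mem_insert_self _ _)
        rintro rfl
        exact ha hi
      · intro F hF
        have e0 : F ∩ (U ∩ (T0 ∪ I.biUnion T)) ∩ T0 = F ∩ T0 := by
          ext x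
          simp only [Finset.mem_inter, Finset.mem_union]
          have := @hF x
          tauto
        have e1 : ∀ i ∈ I, F ∩ (U ∩ (T0 ∪ I.biUnion T)) ∩ T i = F ∩ T i := by
          intro i hi
          ext x
          simp only [Finset.mem_inter, Finset.mem_union, Finset.mem_biUnion]
          constructor
          · rintro ⟨⟨k1, -⟩, k2⟩
            exact ⟨k1, k2⟩
          · rintro ⟨k1, k2⟩
            exact ⟨⟨k1, hF k1, Or.inr ⟨i, hi, k2⟩⟩, k2⟩
        rw [h0 F, h0 (F ∩ (U ∩ (T0 ∪ I.biUnion T))), e0]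
        congr 1
        apply Finset.prod_congr rfl
        intro i hi
        rw [hf i (Finset.mem_insert_of_mem hi) F,
          hf i (Finset.mem_insert_of_mem hi) (F ∩ (U ∩ (T0 ∪ I.biUnion T))), e1 i hi]
      · intro F hF
        have e2 : F ∩ (U ∩ T a) ∩ T a = F ∩ T a := by
          ext x
          simp only [Finset.mem_inter]
          have := @hF x
          tauto
        rw [hf a (Finset.mem_insert_self _ _) F,
          hf a (Finset.mem_insert_self _ _) (F ∩ (U ∩ T a)), e2]
    rw [e, hind]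
    have n1 : 0 ≤ Ex p U (fun F => f0 F * ∏ i ∈ I, f i F) := by
      apply Ex_nonneg hp
      intro F _
      exact mul_nonneg (hn0 F) (Finset.prod_nonneg fun i hi => hn i (Finset.mem_insert_of_mem hi) F)
    have n2 : 0 ≤ Ex p U (f a) := Ex_nonneg hp fun F _ => hn a (Finset.mem_insert_self _ _) F
    have h2 := h1 a (Finset.mem_insert_self _ _)
    nlinarith

/-- the inequality between the means for the colour classes -/
theorem colour {ι κ : Type*} [DecidableEq ι] [Fintype κ] [DecidableEq κ] [Nonempty κ]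
    (col : ι → κ) (a : Finset ι) (x : ι → ℝ) (hx : ∀ i ∈ a, 0 ≤ x i) :
    ∏ i ∈ a, x i ≤
      ∑ c : κ, (1 / (Fintype.card κ : ℝ)) * (∏ i ∈ a.filter (fun i => col i = c), x i ^ Fintype.card κ) := by
  classical
  have hcard : (0 : ℝ) < Fintype.card κ := by exact_mod_cast Fintype.card_pos
  have h1 : ∏ i ∈ a, x i = ∏ c : κ, ∏ i ∈ a.filter (fun i => col i = c), x i :=
    (Finset.prod_fiberwise_of_maps_to (fun i _ => Finset.mem_univ (col i)) _).symm
  set s : κ → ℝ := fun c => ∏ i ∈ a.filter (fun i => col i = c), x i with hs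
  have hs0 : ∀ c, 0 ≤ s c := fun c =>
    Finset.prod_nonneg fun i hi => hx i (Finset.mem_filter.mp hi).1
  have h2 := Real.geom_mean_le_arith_mean_weighted Finset.univ
    (fun _ : κ => 1 / (Fintype.card κ : ℝ)) (fun c => s c ^ Fintype.card κ)
    (fun _ _ => by positivity)
    (by rw [Finset.sum_const, Finset.card_univ, nsmul_eq_mul]; field_simp)
    (fun c _ => pow_nonneg (hs0 c) _)
  rw [h1]
  have h3 : ∏ c : κ, s c = ∏ c : κ, (s c ^ Fintype.card κ) ^ (1 / (Fintype.card κ : ℝ)) := by
    apply Finset.prod_congr rfl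
    intro c _
    rw [one_div, Real.pow_rpow_inv_natCast (hs0 c) Fintype.card_ne_zero]
  rw [h3]
  refine h2.trans (le_of_eq ?_)
  apply Finset.sum_congr rfl
  intro c _
  rw [hs]
  simp only
  rw [Finset.prod_pow]

abbrev Ix := Pool.Agent.TH981.LO.Vt 2

/-- connected sets of indices which contain `0` -/
def Conn0 (a : Finset Ix) : Prop :=
  (0 : Ix) ∈ a ∧ ∀ j ∈ a, Relation.ReflTransGen
    (fun u v : Ix => v ∈ a ∧ Pool.Agent.TH981.LO.nm (u - v) ≤ 1) 0 j

/-- sums over animals -/
theorem animal_sum (A : Finset (Finset Ix)) (hA : ∀ a ∈ A, Conn0 a) {β : ℝ} (hβ : 0 ≤ β)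
    (hβ1 : 1024 * β ≤ 1) : ∑ a ∈ A, β ^ a.card ≤ 2 := by
  classical
  obtain ⟨L, hL⟩ : ∃ L : ℕ, ∀ a ∈ A, a.card < L := by
    refine ⟨A.sup Finset.card + 1, fun a ha => ?_⟩
    exact Nat.lt_succ_of_le (Finset.le_sup (f := Finset.card) ha)
  have h1 : ∑ a ∈ A, β ^ a.card = ∑ j ∈ range L, ∑ a ∈ A.filter (fun a => a.card = j), β ^ a.card :=
    (Finset.sum_fiberwise_of_maps_to (fun a ha => Finset.mem_range.mpr (hL a ha)) _).symm
  have h2 : ∀ j ∈ range L, ∑ a ∈ A.filter (fun a => a.card = j), β ^ a.card ≤ (1 / 2 : ℝ) ^ j := by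
    intro j _
    have h3 := Pool.Agent.TH429.J468.animal 2 j {0} (A.filter (fun a => a.card = j)) (by
      intro B hB
      rw [Finset.mem_filter] at hB
      obtain ⟨k1, k2⟩ := hA B hB.1
      refine ⟨hB.2, Finset.singleton_subset_iff.mpr k1, fun i hi => ⟨0, by simp, k2 i hi⟩⟩)
    have h4 : ∑ a ∈ A.filter (fun a => a.card = j), β ^ a.card =
        ((A.filter (fun a => a.card = j)).card : ℝ) * β ^ j := by
      rw [Finset.sum_congr rfl (g := fun _ => β ^ j) (fun a ha => by rw [(Finset.mem_filter.mp ha).2]),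
        Finset.sum_const, nsmul_eq_mul]
    rw [h4]
    have h5 : ((A.filter (fun a => a.card = j)).card : ℝ) ≤ 512 ^ j := by
      have : (A.filter (fun a => a.card = j)).card ≤ 512 ^ j := by
        refine h3.trans (le_of_eq ?_)
        rw [pow_mul]
        norm_num
      exact_mod_cast this
    calc ((A.filter (fun a => a.card = j)).card : ℝ) * β ^ j ≤ 512 ^ j * β ^ j :=
          mul_le_mul_of_nonneg_right h5 (pow_nonneg hβ j)
      _ = (512 * β) ^ j := (mul_pow _ _ _).symm
      _ ≤ _ := pow_le_pow_left₀ (by positivity) (by linarith) j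
  rw [h1]
  refine (Finset.sum_le_sum h2).trans ?_
  have h6 := sum_geometric_two_le L
  simpa using h6

end Q291.CS
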