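import Pool.Agent.Y244.PC.Mom
import Pool.Agent.Y244.PC.Grid
import Pool.Agent.H160R2.SA.Arm

/-!
A grid of open crossings connects all the vertices with a long arm.
-/

set_option autoImplicit false

namespace Q291.CS
open Finset H974 Pool.Agent.H160R2.CV Pool.Agent.H160R2.CV.Quad H362P Pool.Agent.Y244.PC

/-- the index of the strip -/
theorem locate2 {n m K : ℕ} (hm : 1 ≤ m) (hK : 4 * m * K + 2 * m = 2 * n) {a : ℤ}
    (h1 : -(n : ℤ) + 4 * m ≤ a) (h2 : a ≤ n - 6 * m) :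
    ∃ i : ℕ, i + 2 ≤ K ∧ st n m (i + 1) ≤ a ∧ a ≤ st n m (i + 2) := by
  have hm' : (0 : ℤ) < m := by exact_mod_cast hm
  have hK' : 4 * (m : ℤ) * K + 2 * m = 2 * n := by exact_mod_cast hK
  obtain ⟨t, ht⟩ : ∃ t : ℤ, t = (a + n) / (4 * m) := ⟨_, rfl⟩
  have h4 : (0 : ℤ) < 4 * m := by omega
  have e1 : 4 * (m : ℤ) * t ≤ a + n := by
    rw [ht]; exact Int.mul_ediv_self_le h4.ne'
  have e2 : a + n < 4 * (m : ℤ) * t + 4 * m := by
    rw [ht]
    have := Int.lt_mul_ediv_self_add (x := a + n) h4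
    linarith
  have ht1 : 1 ≤ t := by
    rw [ht]
    apply (Int.le_ediv_iff_mul_le h4).mpr
    omega
  have htK : t + 1 ≤ K := by
    have h5 : 4 * (m : ℤ) * (t + 1) ≤ 4 * m * K := by nlinarith
    exact le_of_mul_le_mul_left h5 h4
  refine ⟨(t - 1).toNat, by omega, ?_, ?_⟩
  · unfold st
    have : (((t - 1).toNat + 1 : ℕ) : ℤ) = t := by omega
    rw [this]; linarith
  · unfold st
    have : (((t - 1).toNat + 2 : ℕ) : ℤ) = t + 1 := by omega
    rw [this]; nlinarith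

theorem grid_meet2 {n m K : ℕ} (hm : 1 ≤ m) (hK : 4 * m * K + 2 * m = 2 * n) {F : Finset Edg}
    (hG : Grid n m K F) : ∃ z : Vtx, ∀ u : Vtx,
      inR (-(n : ℤ) + 4 * m) (n - 6 * m) (-(n : ℤ) + 4 * m) (n - 6 * m) u →
      Far u (8 * m) F → Reach (↑F ∩ ↑(boxE n)) u z := by
  have hK0 : 4 * m * K + 2 * m ≤ 2 * n := hK.le
  have hH : ∀ i, i ≤ K → ∃ h h' : ℤ, (st n m i ≤ h ∧ h ≤ st n m i + 2 * m) ∧
      Reach (↑F ∩ ↑(RE (-(n : ℤ)) n (st n m i) (st n m i + 2 * m))) (-(n : ℤ), h) (n, h') := by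
    intro i hi
    obtain ⟨y, y', h1, h2, h3⟩ := hG.1 i (by rw [Finset.mem_range]; omega)
    exact ⟨y, y', h1, h3.mono (Set.inter_subset_inter_right _ (by exact_mod_cast LRE_subset_RE))⟩
  have hV : ∀ i, i ≤ K → ∃ h h' : ℤ, (st n m i ≤ h ∧ h ≤ st n m i + 2 * m) ∧
      Reach (↑F ∩ ↑(RE (st n m i) (st n m i + 2 * m) (-(n : ℤ)) n)) (h, -(n : ℤ)) (h', n) := by
    intro i hi
    obtain ⟨y, y', h1, h2, h3⟩ := hG.2 i (by rw [Finset.mem_range]; omega)
    exact ⟨y, y', h1, h3.mono (Set.inter_subset_inter_right _ (by exact_mod_cast TBE_subset_RE))⟩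
  choose! H H' hH1 hH2 using hH
  choose! V V' hV1 hV2 using hV
  have hm' : (1 : ℤ) ≤ m := by exact_mod_cast hm
  have hbig : ∀ {a b c d : ℤ}, -(n : ℤ) ≤ a → b ≤ n → -(n : ℤ) ≤ c → d ≤ n →
      (↑F ∩ ↑(RE a b c d) : Set Edg) ⊆ ↑F ∩ ↑(boxE n) := by
    intro a b c d h1 h2 h3 h4
    refine Set.inter_subset_inter_right _ ?_
    unfold boxE
    exact_mod_cast RE_subset h1 h2 h3 h4
  have hHV : ∀ i j, i ≤ K → j ≤ K → Reach (↑F ∩ ↑(boxE n)) (-(n : ℤ), H i) (V j, -(n : ℤ)) := by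
    intro i j hi hj
    have a1 := st_ge n m i
    have a2 := st_ge n m j
    have a3 := st_le hK0 hi
    have a4 := st_le hK0 hj
    exact cross_meet (A := -(n : ℤ)) (B := n) (C := -(n : ℤ)) (D := n) (a := st n m j)
      (b := st n m j + 2 * m) (c := st n m i) (d := st n m i + 2 * m) a2 (by omega) a4 a1
      (by omega) a3 (hH2 i hi) a2 a4 (hV2 j hj) a1 a3
  refine ⟨(-(n : ℤ), H 0), ?_⟩
  have hHz : ∀ i, i ≤ K → Reach (↑F ∩ ↑(boxE n)) (-(n : ℤ), H i) (-(n : ℤ), H 0) := by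
    intro i hi
    exact (hHV i 0 hi (Nat.zero_le K)).trans (hHV 0 0 (Nat.zero_le K) (Nat.zero_le K)).symm
  have hVz : ∀ i, i ≤ K → Reach (↑F ∩ ↑(boxE n)) (V i, -(n : ℤ)) (-(n : ℤ), H 0) := by
    intro i hi
    exact (hHV 0 i (Nat.zero_le K) hi).symm
  intro u hu hfar
  obtain ⟨i, hi, hi1, hi2⟩ := locate2 hm hK hu.1.1 hu.1.2
  obtain ⟨j, hj, hj1, hj2⟩ := locate2 hm hK hu.2.1 hu.2.2
  have a1 := st_ge n m i
  have a2 := st_ge n m j
  have a3 := st_le hK0 hi
  have a4 := st_le hK0 hj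
  have b1 := st_succ n m i
  have b2 := st_succ n m j
  have b3 : st n m (i + 2) = st n m (i + 1) + 4 * m := st_succ n m (i + 1)
  have b4 : st n m (j + 2) = st n m (j + 1) + 4 * m := st_succ n m (j + 1)
  obtain ⟨v, hv, hr⟩ := hfar
  have hv' : v.1 ≤ st n m i ∨ st n m i + 10 * m ≤ v.1 ∨ v.2 ≤ st n m j ∨
      st n m j + 10 * m ≤ v.2 := by
    unfold nv at hv
    simp only [Prod.fst_sub, Prod.snd_sub] at hv
    omega
  obtain ⟨w, k1, k2, k3⟩ := first_exit (a := st n m i) (b := st n m i + 10 * m) (c := st n m j)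
    (d := st n m j + 10 * m) (by unfold inR; omega) hr hv'
  unfold inR at k1
  have huw : Reach (↑F ∩ ↑(boxE n)) u w := k3.mono (hbig a1 (by omega) a2 (by omega))
  rcases k2 with hw | hw | hw | hw
  · have h1 := cross_meet (A := st n m i) (B := st n m i + 10 * m) (C := -(n : ℤ)) (D := n)
      (a := st n m i) (b := st n m i + 2 * m) (c := st n m j) (d := st n m j + 10 * m) le_rfl
      (by omega) (by omega) a2 (by omega) (by omega) k3.symm hw.le (by omega) (hV2 i (by omega))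
      a2 (show st n m j + 10 * m ≤ (n : ℤ) by omega)
    exact huw.trans ((h1.mono (hbig a1 (by omega) le_rfl le_rfl)).trans (hVz i (by omega)))
  · have h1 := cross_meet (A := st n m i) (B := st n m i + 10 * m) (C := -(n : ℤ)) (D := n)
      (a := st n m (i + 2)) (b := st n m (i + 2) + 2 * m) (c := st n m j)
      (d := st n m j + 10 * m) (by omega) (by omega) (by omega) a2 (by omega) (by omega) k3
      (by omega) (by omega) (hV2 (i + 2) (by omega)) a2
      (show st n m j + 10 * m ≤ (n : ℤ) by omega)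
    exact (h1.mono (hbig a1 (by omega) le_rfl le_rfl)).trans (hVz (i + 2) (by omega))
  · have h1 := cross_meet (A := -(n : ℤ)) (B := n) (C := st n m j) (D := st n m j + 10 * m)
      (a := st n m i) (b := st n m i + 10 * m) (c := st n m j) (d := st n m j + 2 * m) a1
      (by omega) (by omega) le_rfl (by omega) (by omega) (hH2 j (by omega)) a1
      (show st n m i + 10 * m ≤ (n : ℤ) by omega) k3.symm hw.le (by omega)
    exact huw.trans ((h1.mono (hbig le_rfl le_rfl a2 (by omega))).symm.trans (hHz j (by omega)))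
  · have h1 := cross_meet (A := -(n : ℤ)) (B := n) (C := st n m j) (D := st n m j + 10 * m)
      (a := st n m i) (b := st n m i + 10 * m) (c := st n m (j + 2))
      (d := st n m (j + 2) + 2 * m) a1
      (by omega) (by omega) (by omega) (by omega) (by omega) (hH2 (j + 2) (by omega)) a1
      (show st n m i + 10 * m ≤ (n : ℤ) by omega) k3 (by omega) (by omega)
    exact (h1.mono (hbig le_rfl le_rfl a2 (by omega))).symm.trans (hHz (j + 2) (by omega))

/-- the probability of the grid -/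
theorem pr_Grid (K : ℕ) : ∃ g : ℝ, 0 < g ∧ ∀ m n : ℕ, 1 ≤ m → 4 * m * K + 2 * m = 2 * n →
    ∀ S : Finset Edg, boxE n ⊆ S → g ≤ Pr P S (Grid n m K) := by
  obtain ⟨b, hb⟩ : ∃ b : ℝ, b = 1 / 2 := ⟨_, rfl⟩
  have hb0 : 0 < b := by rw [hb]; norm_num
  obtain ⟨q0, hq0⟩ : ∃ q0 : ℝ, q0 = b ^ (141 * (2 * K) + 47) := ⟨_, rfl⟩
  have hq00 : 0 < q0 := by rw [hq0]; exact pow_pos hb0 _
  refine ⟨q0 ^ (K + 1) * q0 ^ (K + 1), by positivity, fun m n hm hK S hS => ?_⟩
  have hstrip : q0 ≤ hh (1 / 2) (2 * (n : ℤ)) (2 * m) := by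
    rw [hq0, hb]
    apply hh_long (m := m) (by exact_mod_cast hm) (2 * K) (by omega) _ le_rfl
    push_cast
    have : (4 * (m : ℤ) * K + 2 * m) = 2 * n := by exact_mod_cast hK
    nlinarith [(by positivity : (0:ℤ) ≤ m * K)]
  have f1 := fkg_incr w_ok (S := S) (range (K + 1))
    (fun i => LRc (-(n : ℤ)) n (st n m i) (st n m i + 2 * m)) (fun i _ => LRc_incr _ _ _ _ _)
  have f2 := fkg_incr w_ok (S := S) (range (K + 1))
    (fun i => TBc (st n m i) (st n m i + 2 * m) (-(n : ℤ)) n) (fun i _ => TBc_incr _ _ _ _ _)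
  have g1 := (Pool.Agent.Y244.PC.pow_card_le_prod (range (K + 1)) _ hq00.le (fun i hi => by
      rw [strip_LR hK.le (by rw [Finset.mem_range] at hi; omega) hS]
      exact hstrip)).trans f1
  have g2 := (Pool.Agent.Y244.PC.pow_card_le_prod (range (K + 1)) _ hq00.le (fun i hi => by
      rw [strip_TB hK.le (by rw [Finset.mem_range] at hi; omega) hS]
      exact hstrip)).trans f2
  rw [Finset.card_range] at g1 g2
  have i1 : IncrE S (fun F => ∀ i ∈ range (K + 1),
      LRc (-(n : ℤ)) n (st n m i) (st n m i + 2 * m) F) :=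
    fun F G hFG hG h i hi => (h i hi).mono hFG
  have i2 : IncrE S (fun F => ∀ i ∈ range (K + 1),
      TBc (st n m i) (st n m i + 2 * m) (-(n : ℤ)) n F) :=
    fun F G hFG hG h i hi => (h i hi).mono hFG
  have j1 := Pr_harris w_ok i1 i2
  have p1 : 0 ≤ q0 ^ (K + 1) := pow_nonneg hq00.le _
  exact (mul_le_mul g1 g2 p1 (p1.trans g1)).trans j1

end Q291.CS
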