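import Pool.Agent.Q291.CS.Grid2

/-!
Moments of the number of the vertices of a box with a long arm, on the event that a given vertex
has a long arm.
-/

set_option autoImplicit false

namespace Q291.CS
open Finset H974 Pool.Agent.H160R2.CV Pool.Agent.H160R2.CV.Quad H362P Pool.Agent.Y244.PC
open Pool.Agent.H389R2.CD

/-- all the vertices of `X` have an arm to distance `M` -/
def QQ (M : ℕ) (X : Finset Vtx) (F : Finset Edg) : Prop := ∀ x ∈ X, LA x M F

/-- the number of the vertices of `B` with an arm to distance `M` -/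
noncomputable def VV (M : ℕ) (B : Finset Vtx) (F : Finset Edg) : ℝ := ∑ y ∈ B, ind (LA y M F)

theorem VV_nonneg (M : ℕ) (B : Finset Vtx) (F : Finset Edg) : 0 ≤ VV M B F :=
  Finset.sum_nonneg fun _ _ => ind_nonneg _

theorem VV_mono (M : ℕ) (B : Finset Vtx) {F G : Finset Edg} (h : F ⊆ G) :
    VV M B F ≤ VV M B G := Finset.sum_le_sum fun y _ => ind_mono (LA_inc y M F G h)

theorem VV_dep {M : ℕ} {B : Finset Vtx} {T : Finset Edg} (h : ∀ y ∈ B, bo y M ⊆ T)
    (F : Finset Edg) : VV M B F = VV M B (F ∩ T) :=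
  Finset.sum_congr rfl fun y hy => ind_congr (LA_loc (h y hy) F)

theorem QQ_inc (M : ℕ) (X : Finset Vtx) : IncA (QQ M X) :=
  fun F G h hF x hx => LA_inc x M F G h (hF x hx)

theorem QQ_loc {M : ℕ} {X : Finset Vtx} {T : Finset Edg} (h : ∀ y ∈ X, bo y M ⊆ T) :
    LocE T (QQ M X) :=
  fun F => ⟨fun hF x hx => (LA_loc (h x hx) F).mp (hF x hx),
    fun hF x hx => (LA_loc (h x hx) F).mpr (hF x hx)⟩

theorem QQ_insert (M : ℕ) (X : Finset Vtx) (x : Vtx) (F : Finset Edg) :
    QQ M (insert x X) F ↔ LA x M F ∧ QQ M X F := by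
  unfold QQ
  rw [Finset.forall_mem_insert]

/-- the expansion of the power -/
theorem ind_VV_succ (M : ℕ) (B : Finset Vtx) (X : Finset Vtx) (F : Finset Edg) (k : ℕ) :
    ind (QQ M X F) * VV M B F ^ (k + 1) =
      ∑ x ∈ B, ind (QQ M (insert x X) F) * VV M B F ^ k := by
  have h1 : ∀ x ∈ B, ind (QQ M (insert x X) F) * VV M B F ^ k =
      ind (LA x M F) * (ind (QQ M X F) * VV M B F ^ k) := by
    intro x _
    rw [ind_congr (QQ_insert M X x F), ind_and]
    ring
  rw [Finset.sum_congr rfl h1, ← Finset.sum_mul, pow_succ]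
  unfold VV
  ring

theorem bo_sub_box {y : Vtx} {M n : ℕ} (h : nv y + M ≤ n) : bo y M ⊆ boxE n := by
  unfold bo boxE nv at *
  apply RE_subset <;> omega

/-- the base case -/
theorem QQ_prob : ∃ D : ℝ, 0 < D ∧ ∀ m : ℕ, 1 ≤ m → ∀ S : Finset Edg, ∀ X : Finset Vtx,
    (∀ x ∈ X, nv x ≤ 24 * m) → Pr P S (QQ (8 * m) X) ≤ D * PX X := by
  obtain ⟨g, hg, h⟩ := pr_Grid 16
  refine ⟨g⁻¹, inv_pos.mpr hg, fun m hm S X hX => ?_⟩
  have hK : 4 * m * 16 + 2 * m = 2 * (33 * m) := by ring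
  have h1 := h m (33 * m) hm hK (boxE (33 * m)) (Finset.Subset.refl _)
  have hloc : LocE (boxE (33 * m)) (QQ (8 * m) X) := by
    apply QQ_loc
    intro y hy
    apply bo_sub_box
    have := hX y hy
    omega
  have h2 := pr_le_loc S (boxE (33 * m)) (QQ_inc (8 * m) X) hloc
  have i1 : IncrE (boxE (33 * m)) (QQ (8 * m) X) := fun F G h _ hF => QQ_inc _ _ F G h hF
  have i2 : IncrE (boxE (33 * m)) (Grid (33 * m) m 16) := fun F G h _ hF =>
    ⟨fun i hi => (hF.1 i hi).mono h, fun i hi => (hF.2 i hi).mono h⟩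
  have h3 := Pr_harris w_ok i1 i2
  have h4 : Pr P (boxE (33 * m)) (fun F => QQ (8 * m) X F ∧ Grid (33 * m) m 16 F) ≤
      Pr P (boxE (33 * m)) (fun F => Cn X ↑F) := by
    apply Pr_mono w_ok
    rintro F _ ⟨hF1, hF2⟩
    obtain ⟨z, hz⟩ := grid_meet2 hm hK hF2
    have key : ∀ u ∈ X, Reach (↑F) u z := by
      intro u hu
      refine (hz u ?_ (far_of_LA (hF1 u hu))).mono Set.inter_subset_left
      have := hX u hu
      unfold nv at this
      unfold inR
      push_cast
      omega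
    intro u hu v hv
    exact (key u hu).trans (key v hv).symm
  have h5 := PX_ge X (33 * m)
  have h6 : Pr P (boxE (33 * m)) (QQ (8 * m) X) * g ≤ PX X := by
    refine le_trans ?_ (h3.trans (h4.trans h5))
    exact mul_le_mul_of_nonneg_left h1 (Pr_nonneg w_ok _ _)
  rw [← div_eq_inv_mul, le_div_iff₀ hg]
  exact le_trans (mul_le_mul_of_nonneg_right h2 hg.le) h6

/-- moments and connection probabilities -/
theorem Ex_VV_le : ∃ D : ℝ, 0 < D ∧ ∀ m : ℕ, 1 ≤ m → ∀ S : Finset Edg, ∀ B : Finset Vtx,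
    (∀ x ∈ B, nv x ≤ 24 * m) → ∀ (k : ℕ) (X : Finset Vtx), (∀ x ∈ X, nv x ≤ 24 * m) →
    Ex P S (fun F => ind (QQ (8 * m) X F) * VV (8 * m) B F ^ k) ≤
      D * Pool.Agent.Y244.PC.W (33 * m) k X := by
  obtain ⟨D, hD, h⟩ := QQ_prob
  refine ⟨D, hD, fun m hm S B hB k => ?_⟩
  induction k with
  | zero =>
    intro X hX
    have e : (fun F => ind (QQ (8 * m) X F) * VV (8 * m) B F ^ 0) =
        fun F => ind (QQ (8 * m) X F) := by
      funext F
      rw [pow_zero, mul_one]
    rw [e]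
    exact h m hm S X hX
  | succ k ih =>
    intro X hX
    have e : (fun F => ind (QQ (8 * m) X F) * VV (8 * m) B F ^ (k + 1)) =
        fun F => ∑ x ∈ B, ind (QQ (8 * m) (insert x X) F) * VV (8 * m) B F ^ k := by
      funext F
      exact ind_VV_succ _ _ _ _ _
    rw [e, Ex_sum]
    have hsub : B ⊆ bx (33 * m) := by
      intro x hx
      have := hB x hx
      rw [VolAux.mem_bx]
      omega
    calc ∑ x ∈ B, Ex P S (fun F => ind (QQ (8 * m) (insert x X) F) * VV (8 * m) B F ^ k)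
        ≤ ∑ x ∈ B, D * Pool.Agent.Y244.PC.W (33 * m) k (insert x X) := by
          apply Finset.sum_le_sum
          intro x hx
          apply ih
          intro y hy
          rcases Finset.mem_insert.mp hy with rfl | hy
          · exact hB y hx
          · exact hX y hy
      _ = D * ∑ x ∈ B, Pool.Agent.Y244.PC.W (33 * m) k (insert x X) := by rw [Finset.mul_sum]
      _ ≤ D * ∑ x ∈ bx (33 * m), Pool.Agent.Y244.PC.W (33 * m) k (insert x X) := by
          apply mul_le_mul_of_nonneg_left _ hD.le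
          exact Finset.sum_le_sum_of_subset_of_nonneg hsub (fun x _ _ => W_nonneg _ _ _)

/-- the sum of the two-point function -/
theorem sum_two : ∃ C : ℝ, 0 < C ∧ ∀ n : ℕ, 1 ≤ n →
    ∑ x ∈ bx n, PX (insert x {(0 : Vtx)}) ≤ C * (n : ℝ) ^ (43 / 24 : ℝ) := by
  classical
  obtain ⟨c, C, hc, hC, h⟩ := two_point Pool.Agent.H160R2.SA.arSharp
  refine ⟨1 + 96 * C, by positivity, fun n hn => ?_⟩
  have hn1 : (1 : ℝ) ≤ n := by exact_mod_cast hn
  have hn0 : (0 : ℝ) < n := by linarith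
  set f : ℕ → ℝ := fun k => if 1 ≤ k then (k : ℝ) ^ (-(5 / 24 : ℝ)) else 0 with hf
  have hf0 : ∀ k, 0 ≤ f k := by
    intro k
    rw [hf]
    simp only
    split_ifs
    · positivity
    · exact le_rfl
  have hfs : ∑ k ∈ range (n + 1), ((k : ℝ) + 1) * f k ≤ 12 * (n : ℝ) ^ (43 / 24 : ℝ) := by
    have hterm : ∀ k ∈ range (n + 1), ((k : ℝ) + 1) * f k ≤ 4 * (n : ℝ) ^ (19 / 24 : ℝ) := by
      intro k hk
      rw [Finset.mem_range] at hk
      rw [hf]
      simp only
      split_ifs with h1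
      · have hk1 : (1 : ℝ) ≤ k := by exact_mod_cast h1
        have hk0 : (0 : ℝ) < k := by linarith
        have hk2 : (k : ℝ) ≤ n := by exact_mod_cast (by omega : k ≤ n)
        have e1 : (k : ℝ) * (k : ℝ) ^ (-(5 / 24 : ℝ)) = (k : ℝ) ^ (19 / 24 : ℝ) := by
          rw [mul_comm, ← Real.rpow_add_one hk0.ne']
          congr 1
          norm_num
        have h4 : (k : ℝ) ^ (19 / 24 : ℝ) ≤ (n : ℝ) ^ (19 / 24 : ℝ) :=
          Real.rpow_le_rpow hk0.le hk2 (by norm_num)
        have h5 : (0 : ℝ) ≤ (k : ℝ) ^ (-(5 / 24 : ℝ)) := by positivity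
        nlinarith
      · rw [mul_zero]
        positivity
    calc ∑ k ∈ range (n + 1), ((k : ℝ) + 1) * f k
        ≤ ∑ k ∈ range (n + 1), 4 * (n : ℝ) ^ (19 / 24 : ℝ) := Finset.sum_le_sum hterm
      _ = ((n : ℝ) + 1) * (4 * (n : ℝ) ^ (19 / 24 : ℝ)) := by
          rw [Finset.sum_const, Finset.card_range, nsmul_eq_mul]
          push_cast
          ring
      _ ≤ (3 * (n : ℝ)) * (4 * (n : ℝ) ^ (19 / 24 : ℝ)) := by
          apply mul_le_mul_of_nonneg_right _ (by positivity)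
          linarith
      _ = 12 * (n : ℝ) ^ (43 / 24 : ℝ) := by
          have : (43 / 24 : ℝ) = 19 / 24 + 1 := by norm_num
          rw [this, Real.rpow_add_one hn0.ne']
          ring
  have hpt : ∀ y ∈ bx n, PX (insert y {(0 : Vtx)}) ≤ (if y = 0 then 1 else 0) + C * f (nv y) := by
    intro y _
    by_cases hxy : y = 0
    · rw [if_pos hxy, hxy, Finset.insert_eq_self.mpr (Finset.mem_singleton_self _), PX_singleton]
      have := hf0 (nv (0 : Vtx))
      nlinarith
    · rw [if_neg hxy, zero_add]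
      have h1 := (h y 0 hxy).2
      have h2 : 1 ≤ sd y 0 := sd_pos hxy
      rw [hf]
      simp only
      have e : nv y = sd y 0 := by rw [sd_eq]; congr 1; exact (sub_zero y).symm
      rw [e, if_pos h2]
      exact h1
  have h0 : (0 : Vtx) ∈ bx n := by
    rw [VolAux.mem_bx]
    simp [nv]
  calc ∑ y ∈ bx n, PX (insert y {(0 : Vtx)})
      ≤ ∑ y ∈ bx n, ((if y = 0 then 1 else 0) + C * f (nv y)) := Finset.sum_le_sum hpt
    _ = (∑ y ∈ bx n, if y = 0 then (1 : ℝ) else 0) + C * ∑ y ∈ bx n, f (nv y) := by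
        rw [Finset.sum_add_distrib, Finset.mul_sum]
    _ ≤ 1 + C * (8 * (12 * (n : ℝ) ^ (43 / 24 : ℝ))) := by
        apply add_le_add
        · rw [Finset.sum_ite_eq' (bx n) 0 (fun _ => (1 : ℝ)), if_pos h0]
        · apply mul_le_mul_of_nonneg_left _ hC.le
          refine (sum_bx n f hf0).trans ?_
          linarith
    _ ≤ _ := by
        have : (1 : ℝ) ≤ (n : ℝ) ^ (43 / 24 : ℝ) := Real.one_le_rpow hn1 (by norm_num)
        nlinarith

end Q291.CS
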