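import Pool.Agent.Q291.CS.Blocks

/-!
The union bound over the sets of visited blocks.
-/

set_option autoImplicit false

namespace Q291.CS
open Finset H974 Pool.Agent.H160R2.CV Pool.Agent.H160R2.CV.Quad H362P Pool.Agent.Y244.PC
open Pool.Agent.TH981.LO (nm)

theorem nm_sub_le (z w : Ix) : nm (z - w) ≤ nm z + nm w := by
  rw [nm_eq, nm_eq, nm_eq]
  simp only [Pi.sub_apply]
  omega

theorem nm_neg (z : Ix) : nm (0 - z) = nm z := by
  rw [nm_eq, nm_eq]
  simp only [Pi.sub_apply, Pi.zero_apply]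
  omega

/-- one colour class -/
theorem class_bound {p lam A0 : ℝ} (h0 : 0 ≤ p) (h1 : p ≤ 1 / 2) (hA0 : 0 ≤ A0)
    {M : ℕ} (hM : 1 ≤ M) (U : Finset Edg)
    (hfar : ∀ z : Ix, Ex (fun _ => p) U (fun F => xz M lam z F ^ 25) ≤ (1 / 1024) ^ 25)
    (hnear : ∀ z : Ix, nm z ≤ 2 →
      Ex (fun _ => p) U (fun F => ind (QQ M {0} F) * xz M lam z F ^ 25) ≤ A0)
    (hno : Ex (fun _ => p) U (fun F => ind (QQ M {0} F)) ≤ A0)
    (a : Finset Ix) (hcol : ∀ z ∈ a, ∀ w ∈ a, z ≠ w → 5 ≤ nm (z - w)) :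
    Ex (fun _ => p) U (fun F => ind (QQ M {0} F) * ∏ z ∈ a, (xz M lam z F * 1024) ^ 25) ≤
      A0 * 1024 ^ 25 := by
  classical
  have ok := okq h0 (show p ≤ 1 by linarith)
  obtain ⟨nr, hnr⟩ : ∃ nr : Finset Ix, nr = a.filter (fun z => nm z ≤ 2) := ⟨_, rfl⟩
  obtain ⟨fr, hfr⟩ : ∃ fr : Finset Ix, fr = a.filter (fun z => ¬ nm z ≤ 2) := ⟨_, rfl⟩
  have e : Ex (fun _ => p) U (fun F => ind (QQ M {0} F) * ∏ z ∈ a, (xz M lam z F * 1024) ^ 25) =
      Ex (fun _ => p) U (fun F => (ind (QQ M {0} F) * ∏ z ∈ nr, (xz M lam z F * 1024) ^ 25) *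
        ∏ z ∈ fr, (xz M lam z F * 1024) ^ 25) := by
    apply Ex_congr
    intro F _
    rw [mul_assoc, hnr, hfr, Finset.prod_filter_mul_prod_filter_not]
  rw [e]
  have hdisj : ∀ z ∈ a, ∀ w ∈ a, z ≠ w →
      Disjoint (bo (cz M z) (2 * M - 1)) (bo (cz M w) (2 * M - 1)) := by
    intro z hz w hw hne
    apply bo_disj
    rw [nv_cz]
    have := hcol z hz w hw hne
    have : M * 5 ≤ M * nm (z - w) := Nat.mul_le_mul_left _ this
    omega
  have hdep : ∀ z : Ix, ∀ F : Finset Edg, (xz M lam z F * 1024) ^ 25 =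
      (xz M lam z (F ∩ bo (cz M z) (2 * M - 1)) * 1024) ^ 25 := by
    intro z F
    rw [← xz_dep hM]
  apply prod_far ok fr (fun F => ind (QQ M {0} F) * ∏ z ∈ nr, (xz M lam z F * 1024) ^ 25)
    (bo 0 M ∪ nr.biUnion (fun z => bo (cz M z) (2 * M - 1)))
    (fun z F => (xz M lam z F * 1024) ^ 25) (fun z => bo (cz M z) (2 * M - 1))
  · intro F
    have k1 : bo (0 : Vtx) M ⊆ bo 0 M ∪ nr.biUnion (fun z => bo (cz M z) (2 * M - 1)) :=
      Finset.subset_union_left
    have k3 : ind (QQ M {0} F) = ind (QQ M {0}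
        (F ∩ (bo 0 M ∪ nr.biUnion (fun z => bo (cz M z) (2 * M - 1))))) := by
      apply ind_congr
      apply QQ_loc
      intro y hy
      rw [Finset.mem_singleton] at hy
      rw [hy]
      exact k1
    rw [k3]
    congr 1
    apply Finset.prod_congr rfl
    intro z hz
    have k2 : bo (cz M z) (2 * M - 1) ⊆
        bo 0 M ∪ nr.biUnion (fun z => bo (cz M z) (2 * M - 1)) :=
      (Finset.subset_biUnion_of_mem (fun z => bo (cz M z) (2 * M - 1)) hz).trans
        Finset.subset_union_right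
    have k4 := hdep z (F ∩ (bo 0 M ∪ nr.biUnion (fun z => bo (cz M z) (2 * M - 1))))
    rw [Finset.inter_assoc, Finset.inter_eq_right.mpr k2] at k4
    exact (hdep z F).trans k4.symm
  · exact fun z _ F => hdep z F
  · intro z hz
    rw [hfr, Finset.mem_filter] at hz
    rw [Finset.disjoint_union_left, Finset.disjoint_biUnion_left]
    constructor
    · apply bo_disj
      rw [← cz_zero M, nv_cz, nm_neg]
      have : M * 3 ≤ M * nm z := Nat.mul_le_mul_left _ (by omega)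
      omega
    · intro w hw
      rw [hnr, Finset.mem_filter] at hw
      apply hdisj w hw.1 z hz.1
      rintro rfl
      exact hz.2 hw.2
  · intro z hz w hw hne
    rw [hfr, Finset.mem_filter] at hz hw
    exact hdisj z hz.1 w hw.1 hne
  · intro F
    exact mul_nonneg (ind_nonneg _) (Finset.prod_nonneg fun z _ =>
      pow_nonneg (mul_nonneg (xz_nonneg _ _ _ _) (by norm_num)) _)
  · intro z _ F
    exact pow_nonneg (mul_nonneg (xz_nonneg _ _ _ _) (by norm_num)) _
  · intro z _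
    have e2 : (fun F => (xz M lam z F * 1024) ^ 25) =
        fun F => xz M lam z F ^ 25 * (1024 : ℝ) ^ 25 := by
      funext F
      rw [mul_pow]
    rw [e2, Ex_mul_right]
    calc Ex (fun _ => p) U (fun F => xz M lam z F ^ 25) * 1024 ^ 25
        ≤ (1 / 1024) ^ 25 * 1024 ^ 25 := mul_le_mul_of_nonneg_right (hfar z) (by norm_num)
      _ = 1 := by norm_num
  · rcases nr.eq_empty_or_nonempty with hem | ⟨z0, hz0⟩
    · rw [hem]
      simp only [Finset.prod_empty, mul_one]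
      refine hno.trans ?_
      exact le_mul_of_one_le_right hA0 (by norm_num)
    · have hsing : nr = {z0} := by
        rw [Finset.eq_singleton_iff_unique_mem]
        refine ⟨hz0, fun w hw => ?_⟩
        rw [hnr, Finset.mem_filter] at hw hz0
        by_contra hne
        have k1 := hcol w hw.1 z0 hz0.1 hne
        have k2 := nm_sub_le w z0
        omega
      rw [hsing]
      simp only [Finset.prod_singleton]
      have e2 : (fun F => ind (QQ M {0} F) * (xz M lam z0 F * 1024) ^ 25) =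
          fun F => (ind (QQ M {0} F) * xz M lam z0 F ^ 25) * (1024 : ℝ) ^ 25 := by
        funext F
        rw [mul_pow]
        ring
      rw [e2, Ex_mul_right]
      apply mul_le_mul_of_nonneg_right _ (by norm_num)
      apply hnear z0
      rw [hnr, Finset.mem_filter] at hz0
      exact hz0.2

/-- the colour -/
def colr (z : Ix) : Fin 2 → ZMod 5 := fun i => (z i : ZMod 5)

theorem colr_far {z w : Ix} (h : colr z = colr w) (hne : z ≠ w) : 5 ≤ nm (z - w) := by
  obtain ⟨i, hi⟩ := Function.ne_iff.1 hne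
  have h1 : (z i : ZMod 5) = (w i : ZMod 5) := congrFun h i
  rw [ZMod.intCast_eq_intCast_iff] at h1
  have h2 : ((5 : ℕ) : ℤ) ∣ z i - w i := h1.symm.dvd
  have h4 : z i - w i ≠ 0 := sub_ne_zero.2 hi
  have h5 : 5 ≤ (z i - w i).natAbs := by
    have h6 : 5 ∣ (z i - w i).natAbs := Int.natCast_dvd.1 h2
    exact Nat.le_of_dvd (Int.natAbs_pos.2 h4) h6
  refine h5.trans ?_
  exact Finset.le_sup (f := fun i => ((z - w) i).natAbs) (Finset.mem_univ i)

theorem card_col : Fintype.card (Fin 2 → ZMod 5) = 25 := by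
  rw [Fintype.card_fun, ZMod.card, Fintype.card_fin]
  norm_num

/-- the weight of a set of blocks -/
theorem set_bound {p lam A0 : ℝ} (h0 : 0 ≤ p) (h1 : p ≤ 1 / 2) (hA0 : 0 ≤ A0)
    {M : ℕ} (hM : 1 ≤ M) (U : Finset Edg)
    (hfar : ∀ z : Ix, Ex (fun _ => p) U (fun F => xz M lam z F ^ 25) ≤ (1 / 1024) ^ 25)
    (hnear : ∀ z : Ix, nm z ≤ 2 →
      Ex (fun _ => p) U (fun F => ind (QQ M {0} F) * xz M lam z F ^ 25) ≤ A0)
    (hno : Ex (fun _ => p) U (fun F => ind (QQ M {0} F)) ≤ A0) (a : Finset Ix) :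
    Ex (fun _ => p) U (fun F => ind (QQ M {0} F) * ∏ z ∈ a, xz M lam z F) ≤
      A0 * 1024 ^ 25 * (1 / 1024) ^ a.card := by
  classical
  have ok := okq h0 (show p ≤ 1 by linarith)
  have hpt : ∀ F : Finset Edg, ind (QQ M {0} F) * ∏ z ∈ a, xz M lam z F ≤
      (1 / 1024) ^ a.card * ∑ c : Fin 2 → ZMod 5, 1 / 25 *
        (ind (QQ M {0} F) * ∏ z ∈ a.filter (fun z => colr z = c), (xz M lam z F * 1024) ^ 25) := by
    intro F
    have k1 := colour colr a (fun z => xz M lam z F * 1024)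
      (fun z _ => mul_nonneg (xz_nonneg _ _ _ _) (by norm_num))
    rw [card_col] at k1
    have k2 : ∏ z ∈ a, xz M lam z F = (1 / 1024) ^ a.card * ∏ z ∈ a, xz M lam z F * 1024 := by
      rw [Finset.prod_mul_distrib, Finset.prod_const, mul_comm (∏ z ∈ a, xz M lam z F), ← mul_assoc,
        ← mul_pow]
      norm_num
    rw [k2]
    have k3 := ind_nonneg (QQ M {0} F)
    calc ind (QQ M {0} F) * ((1 / 1024) ^ a.card * ∏ z ∈ a, xz M lam z F * 1024)
        = (1 / 1024) ^ a.card * (ind (QQ M {0} F) * ∏ z ∈ a, xz M lam z F * 1024) := by ring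
      _ ≤ (1 / 1024) ^ a.card * (ind (QQ M {0} F) * ∑ c : Fin 2 → ZMod 5, 1 / ((25 : ℕ) : ℝ) *
          ∏ z ∈ a.filter (fun z => colr z = c), (xz M lam z F * 1024) ^ 25) := by
          apply mul_le_mul_of_nonneg_left _ (by positivity)
          exact mul_le_mul_of_nonneg_left k1 k3
      _ = _ := by
          rw [Finset.mul_sum]
          congr 1
          apply Finset.sum_congr rfl
          intro c _
          push_cast
          ring
  refine (Ex_mono ok (fun F _ => hpt F)).trans ?_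
  rw [Ex_mul_left, Ex_sum]
  have hc : ∀ c : Fin 2 → ZMod 5, Ex (fun _ => p) U (fun F => 1 / 25 *
      (ind (QQ M {0} F) * ∏ z ∈ a.filter (fun z => colr z = c), (xz M lam z F * 1024) ^ 25)) ≤
      1 / 25 * (A0 * 1024 ^ 25) := by
    intro c
    rw [Ex_mul_left]
    apply mul_le_mul_of_nonneg_left _ (by norm_num)
    apply class_bound h0 h1 hA0 hM U hfar hnear hno
    intro z hz w hw hne
    rw [Finset.mem_filter] at hz hw
    exact colr_far (hz.2.trans hw.2.symm) hne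
  calc (1 / 1024) ^ a.card * ∑ c : Fin 2 → ZMod 5, Ex (fun _ => p) U (fun F => 1 / 25 *
      (ind (QQ M {0} F) * ∏ z ∈ a.filter (fun z => colr z = c), (xz M lam z F * 1024) ^ 25))
      ≤ (1 / 1024) ^ a.card * ∑ c : Fin 2 → ZMod 5, 1 / 25 * (A0 * 1024 ^ 25) := by
        apply mul_le_mul_of_nonneg_left _ (by positivity)
        exact Finset.sum_le_sum fun c _ => hc c
    _ = _ := by
        rw [Finset.sum_const, Finset.card_univ, card_col, nsmul_eq_mul]
        push_cast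
        ring

/-! ### the visited blocks -/

open Classical in
/-- the vertices of the cluster of the origin -/
noncomputable def clV (F : Finset Edg) : Finset Vtx :=
  (insert (0, 0) (F.image src ∪ F.image tgt)).filter (fun v => Reach (↑F) (0, 0) v)

theorem mem_clV {F : Finset Edg} {v : Vtx} : v ∈ clV F ↔ Reach (↑F) (0, 0) v := by
  classical
  unfold clV
  rw [Finset.mem_filter]
  refine ⟨fun h => h.2, fun h => ⟨?_, h⟩⟩
  rcases Relation.ReflTransGen.cases_tail h with h1 | ⟨w, -, e, he, hc⟩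
  · rw [← h1]; exact Finset.mem_insert_self _ _
  · apply Finset.mem_insert_of_mem
    have he' : e ∈ F := Finset.mem_coe.mp he
    rcases hc with ⟨-, h2⟩ | ⟨h1, -⟩
    · exact Finset.mem_union_right _ (Finset.mem_image.mpr ⟨e, he', h2⟩)
    · exact Finset.mem_union_left _ (Finset.mem_image.mpr ⟨e, he', h1⟩)

/-- the visited blocks -/
noncomputable def vis (M : ℕ) (F : Finset Edg) : Finset Ix := (clV F).image (bid M)

theorem bid_step {M : ℕ} (hM : 1 ≤ M) {F : Set Edg} {u v : Vtx} (h : Adj F u v) :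
    nm (bid M u - bid M v) ≤ 1 := by
  have hM' : (0 : ℤ) < M := by exact_mod_cast hM
  have key : ∀ a b : ℤ, |a - b| ≤ 1 → (a / M - b / M).natAbs ≤ 1 := by
    intro a b hab
    rw [abs_le] at hab
    have h1 : (M : ℤ) * (a / M) ≤ a := Int.mul_ediv_self_le hM'.ne'
    have h2 : a < (M : ℤ) * (a / M) + M := Int.lt_mul_ediv_self_add hM'
    have h3 : (M : ℤ) * (b / M) ≤ b := Int.mul_ediv_self_le hM'.ne'
    have h4 : b < (M : ℤ) * (b / M) + M := Int.lt_mul_ediv_self_add hM'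
    have h5 : (M : ℤ) * (a / M - b / M) < M * 2 := by nlinarith
    have h6 : (M : ℤ) * (b / M - a / M) < M * 2 := by nlinarith
    have h7 := lt_of_mul_lt_mul_left h5 hM'.le
    have h8 := lt_of_mul_lt_mul_left h6 hM'.le
    omega
  rw [nm_le]
  obtain ⟨⟨x, y, o⟩, -, hc⟩ := h
  show (u.1 / (M : ℤ) - v.1 / M).natAbs ≤ 1 ∧ (u.2 / (M : ℤ) - v.2 / M).natAbs ≤ 1
  cases o
  · rcases hc with ⟨h1, h2⟩ | ⟨h1, h2⟩
    · simp only [src, tgt] at h1 h2
      rw [← h1, ← h2]
      refine ⟨key _ _ ?_, key _ _ ?_⟩ <;> simp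
    · simp only [src, tgt] at h1 h2
      rw [← h1, ← h2]
      refine ⟨key _ _ ?_, key _ _ ?_⟩ <;> simp
  · rcases hc with ⟨h1, h2⟩ | ⟨h1, h2⟩
    · simp only [src, tgt] at h1 h2
      rw [← h1, ← h2]
      refine ⟨key _ _ ?_, key _ _ ?_⟩ <;> simp
    · simp only [src, tgt] at h1 h2
      rw [← h1, ← h2]
      refine ⟨key _ _ ?_, key _ _ ?_⟩ <;> simp

theorem bid_zero (M : ℕ) : bid M (0, 0) = 0 := by
  unfold bid
  funext i
  fin_cases i <;> simp

theorem vis_conn {M : ℕ} (hM : 1 ≤ M) (F : Finset Edg) : Conn0 (vis M F) := by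
  have hz : (0, 0) ∈ clV F := mem_clV.mpr (Reach.refl _ _)
  refine ⟨?_, ?_⟩
  · unfold vis
    rw [Finset.mem_image]
    exact ⟨(0, 0), hz, bid_zero M⟩
  · intro j hj
    unfold vis at hj
    rw [Finset.mem_image] at hj
    obtain ⟨v, hv, rfl⟩ := hj
    rw [mem_clV] at hv
    induction hv with
    | refl => rw [bid_zero]
    | @tail b c hb hbc ih =>
      refine ih.tail ⟨?_, bid_step hM hbc⟩
      unfold vis
      rw [Finset.mem_image]
      exact ⟨c, mem_clV.mpr (hb.tail hbc), rfl⟩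

theorem not_blk_gen {F : Finset Edg} {R1 R2 : ℤ} (_h1 : 0 ≤ R1) (h2 : R1 < R2) {u v : Vtx}
    (hu : inR (-R1) R1 (-R1) R1 u)
    (h : Reach (↑F : Set Edg) u v) (hv : v.1 ≤ -R2 ∨ R2 ≤ v.1 ∨ v.2 ≤ -R2 ∨ R2 ≤ v.2) :
    ¬ Blk R1 R2 F := by
  unfold inR at hu
  obtain ⟨w, k1, k2, k3⟩ := first_exit (a := -R2) (b := R2) (c := -R2) (d := R2)
    (by unfold inR; omega) h hv
  rintro ⟨hb1, hb2⟩
  rcases k2 with k2 | k2 | k2 | k2
  · apply hb1
    right
    obtain ⟨y1, y2, m1, m2, m3, -⟩ := sub_LR (a := -R2) (b := -R1) (c := -R2) (d := R2) (by omega)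
      (by rintro x y ⟨-, h⟩ _ _; simp only [mem_coe, mem_RE_true] at h; omega)
      (by rintro x y ⟨-, h⟩ _ _; simp only [mem_coe, mem_RE_false] at h; omega)
      k3.symm k2.le hu.1.1
    exact ⟨y1, y2, m1, m2, m3.mono (by rintro e ⟨⟨h4, -⟩, h5⟩; exact ⟨h4, h5⟩)⟩
  · apply hb1
    left
    obtain ⟨y1, y2, m1, m2, m3, -⟩ := sub_LR (a := R1) (b := R2) (c := -R2) (d := R2) (by omega)
      (by rintro x y ⟨-, h⟩ _ _; simp only [mem_coe, mem_RE_true] at h; omega)
      (by rintro x y ⟨-, h⟩ _ _; simp only [mem_coe, mem_RE_false] at h; omega)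
      k3 hu.1.2 k2.ge
    exact ⟨y1, y2, m1, m2, m3.mono (by rintro e ⟨⟨h4, -⟩, h5⟩; exact ⟨h4, h5⟩)⟩
  · apply hb2
    right
    obtain ⟨y1, y2, m1, m2, m3, -⟩ := sub_TB (a := -R2) (b := R2) (c := -R2) (d := -R1) (by omega)
      (by rintro x y ⟨-, h⟩ _ _; simp only [mem_coe, mem_RE_false] at h; omega)
      (by rintro x y ⟨-, h⟩ _ _; simp only [mem_coe, mem_RE_true] at h; omega)
      k3.symm k2.le hu.2.1
    exact ⟨y1, y2, m1, m2, m3.mono (by rintro e ⟨⟨h4, -⟩, h5⟩; exact ⟨h4, h5⟩)⟩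
  · apply hb2
    left
    obtain ⟨y1, y2, m1, m2, m3, -⟩ := sub_TB (a := -R2) (b := R2) (c := R1) (d := R2) (by omega)
      (by rintro x y ⟨-, h⟩ _ _; simp only [mem_coe, mem_RE_false] at h; omega)
      (by rintro x y ⟨-, h⟩ _ _; simp only [mem_coe, mem_RE_true] at h; omega)
      k3 hu.2.2 k2.ge
    exact ⟨y1, y2, m1, m2, m3.mono (by rintro e ⟨⟨h4, -⟩, h5⟩; exact ⟨h4, h5⟩)⟩

theorem vis_Cs {M : ℕ} (hM : 1 ≤ M) {F : Finset Edg} {w : Vtx} (hw : Reach (↑F) (0, 0) w)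
    (hw2 : 4 * M ≤ nv w) {z : Ix} (hz : z ∈ vis M F) : Cs M z F := by
  unfold vis at hz
  rw [Finset.mem_image] at hz
  obtain ⟨y, hy, rfl⟩ := hz
  rw [mem_clV] at hy
  have h1 := blk_near (mem_blk_bid hM y)
  obtain ⟨c, hc⟩ : ∃ c : Vtx, c = cz M (bid M y) := ⟨_, rfl⟩
  rw [← hc] at h1
  obtain ⟨w', hw', hw2'⟩ : ∃ w' : Vtx, Reach (↑F) y w' ∧ 2 * M ≤ nv (w' - c) := by
    by_cases hcase : 2 * M ≤ nv (0 - c)
    · exact ⟨(0, 0), hy.symm, hcase⟩
    · refine ⟨w, hy.symm.trans hw, ?_⟩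
      push Not at hcase
      unfold nv at hcase hw2 ⊢
      simp only [Prod.fst_sub, Prod.snd_sub, Prod.fst_zero, Prod.snd_zero] at hcase hw2 ⊢
      omega
  unfold Cs
  rw [← hc]
  have hr : Reach (↑(sh c F)) (y - c) (w' - c) := by
    rw [sh_reach, sub_add_cancel, sub_add_cancel]
    exact hw'
  apply not_blk_gen (u := y - c) (v := w' - c) (by positivity) (by omega) _ hr
  · unfold nv at hw2'
    omega
  · unfold nv at h1
    unfold inR
    omega

theorem VV_card (M : ℕ) (B : Finset Vtx) (F : Finset Edg) [DecidablePred (fun y => LA y M F)] :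
    VV M B F = ((B.filter (fun y => LA y M F)).card : ℝ) := by
  unfold VV
  rw [w_sum_ind]

theorem count_le {M : ℕ} (hM : 1 ≤ M) {F : Finset Edg} {w : Vtx} (hw : Reach (↑F) (0, 0) w)
    (hw2 : 2 * M ≤ nv w) : ((clV F).card : ℝ) ≤ ∑ z ∈ vis M F, VV M (blk M z) F := by
  classical
  have hLA : ∀ y ∈ clV F, LA y M F := by
    intro y hy
    rw [mem_clV] at hy
    rw [LA_iff]
    by_cases hcase : M ≤ nv (0 - y)
    · exact ⟨(0, 0), hcase, hy.symm⟩
    · refine ⟨w, ?_, hy.symm.trans hw⟩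
      push Not at hcase
      unfold nv at hcase hw2 ⊢
      simp only [Prod.fst_sub, Prod.snd_sub, Prod.fst_zero, Prod.snd_zero] at hcase hw2 ⊢
      omega
  have hsub : clV F ⊆ (vis M F).biUnion (fun z => (blk M z).filter (fun y => LA y M F)) := by
    intro y hy
    rw [Finset.mem_biUnion]
    refine ⟨bid M y, ?_, ?_⟩
    · unfold vis
      exact Finset.mem_image_of_mem _ hy
    · rw [Finset.mem_filter]
      exact ⟨mem_blk_bid hM y, hLA y hy⟩
  have h1 := (Finset.card_le_card hsub).trans Finset.card_biUnion_le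
  have h2 : ((clV F).card : ℝ) ≤
      ((∑ z ∈ vis M F, ((blk M z).filter (fun y => LA y M F)).card : ℕ) : ℝ) := by
    exact_mod_cast h1
  rw [Nat.cast_sum] at h2
  refine h2.trans (le_of_eq ?_)
  apply Finset.sum_congr rfl
  intro z _
  rw [VV_card]

/-- the long clusters -/
theorem union_bound {p lam A0 : ℝ} (h0 : 0 ≤ p) (h1 : p ≤ 1 / 2) (hl : 0 ≤ lam) (hA0 : 0 ≤ A0)
    {M : ℕ} (hM : 1 ≤ M) (U : Finset Edg)
    (hfar : ∀ z : Ix, Ex (fun _ => p) U (fun F => xz M lam z F ^ 25) ≤ (1 / 1024) ^ 25)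
    (hnear : ∀ z : Ix, nm z ≤ 2 →
      Ex (fun _ => p) U (fun F => ind (QQ M {0} F) * xz M lam z F ^ 25) ≤ A0)
    (hno : Ex (fun _ => p) U (fun F => ind (QQ M {0} F)) ≤ A0) (n : ℝ) :
    Pr (fun _ => p) U (fun F => Vol n ↑F ∧ ∃ w : Vtx, Reach (↑F) (0, 0) w ∧ 4 * M ≤ nv w) ≤
      2 * (A0 * 1024 ^ 25) * Real.exp (-(lam * n)) := by
  classical
  have ok := okq h0 (show p ≤ 1 by linarith)
  obtain ⟨A, hA⟩ : ∃ A : Finset (Finset Ix), A = U.powerset.image (vis M) := ⟨_, rfl⟩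
  have hAc : ∀ a ∈ A, Conn0 a := by
    intro a ha
    rw [hA, Finset.mem_image] at ha
    obtain ⟨F, -, rfl⟩ := ha
    exact vis_conn hM F
  have hpt : ∀ F, F ⊆ U → ind (Vol n ↑F ∧ ∃ w : Vtx, Reach (↑F) (0, 0) w ∧ 4 * M ≤ nv w) ≤
      ∑ a ∈ A, Real.exp (-(lam * n)) * (ind (QQ M {0} F) * ∏ z ∈ a, xz M lam z F) := by
    intro F hFU
    have hnn : ∀ a ∈ A, 0 ≤ Real.exp (-(lam * n)) * (ind (QQ M {0} F) * ∏ z ∈ a, xz M lam z F) :=
      fun a _ => mul_nonneg (Real.exp_pos _).le (mul_nonneg (ind_nonneg _)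
        (Finset.prod_nonneg fun z _ => xz_nonneg _ _ _ _))
    by_cases hev : Vol n ↑F ∧ ∃ w : Vtx, Reach (↑F) (0, 0) w ∧ 4 * M ≤ nv w
    · rw [ind_of hev]
      obtain ⟨⟨T, hT, hr⟩, w, hw, hw2⟩ := hev
      have hmem : vis M F ∈ A := by
        rw [hA]
        exact Finset.mem_image_of_mem _ (Finset.mem_powerset.mpr hFU)
      refine le_trans ?_ (Finset.single_le_sum hnn hmem)
      have hQ : QQ M {0} F := by
        intro x hx
        rw [Finset.mem_singleton] at hx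
        rw [hx, LA_iff]
        refine ⟨w, ?_, hw⟩
        rw [sub_zero]
        omega
      have hprod : ∏ z ∈ vis M F, xz M lam z F =
          Real.exp (lam * ∑ z ∈ vis M F, VV M (blk M z) F) := by
        rw [Finset.mul_sum, Real.exp_sum]
        apply Finset.prod_congr rfl
        intro z hz
        unfold xz
        rw [ind_of (vis_Cs hM hw hw2 hz), one_mul]
      rw [ind_of hQ, one_mul, hprod, ← Real.exp_add]
      apply Real.one_le_exp
      have hTc : (T.card : ℝ) ≤ ((clV F).card : ℝ) := by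
        exact_mod_cast Finset.card_le_card (fun u hu => mem_clV.mpr (hr u hu))
      have h3 := count_le hM hw (by omega)
      have h4 : lam * n ≤ lam * ∑ z ∈ vis M F, VV M (blk M z) F :=
        mul_le_mul_of_nonneg_left (hT.trans (hTc.trans h3)) hl
      linarith
    · rw [ind_not_of hev]
      exact Finset.sum_nonneg hnn
  unfold Pr
  refine (Ex_mono ok hpt).trans ?_
  rw [Ex_sum]
  have hterm : ∀ a ∈ A, Ex (fun _ => p) U (fun F => Real.exp (-(lam * n)) *
      (ind (QQ M {0} F) * ∏ z ∈ a, xz M lam z F)) ≤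
      Real.exp (-(lam * n)) * (A0 * 1024 ^ 25 * (1 / 1024) ^ a.card) := by
    intro a _
    rw [Ex_mul_left]
    exact mul_le_mul_of_nonneg_left (set_bound h0 h1 hA0 hM U hfar hnear hno a)
      (Real.exp_pos _).le
  refine (Finset.sum_le_sum hterm).trans ?_
  rw [← Finset.mul_sum, ← Finset.mul_sum]
  have h5 := animal_sum A hAc (β := 1 / 1024) (by norm_num) (by norm_num)
  calc Real.exp (-(lam * n)) * (A0 * 1024 ^ 25 * ∑ a ∈ A, (1 / 1024) ^ a.card)
      ≤ Real.exp (-(lam * n)) * (A0 * 1024 ^ 25 * 2) := by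
        apply mul_le_mul_of_nonneg_left _ (Real.exp_pos _).le
        exact mul_le_mul_of_nonneg_left h5 (by positivity)
    _ = _ := by ring

end Q291.CS
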