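import Pool.Agent.Q291.CS.Union

/-!
The upper bound for the tail of the cluster size below the critical point, in finite volume.
-/

set_option autoImplicit false

namespace Q291.CS
open Finset H974 Pool.Agent.H160R2.CV Pool.Agent.H160R2.CV.Quad H362P Pool.Agent.Y244.PC
open Pool.Agent.TH981.LO (nm)

/-- the number of the vertices of the cluster of the origin in the box of radius `n` -/
noncomputable def VC (n : ℕ) (F : Finset Edg) : ℝ := ∑ x ∈ bx n, ind (Reach (↑F) (0, 0) x)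

theorem VC_nonneg (n : ℕ) (F : Finset Edg) : 0 ≤ VC n F :=
  Finset.sum_nonneg fun _ _ => ind_nonneg _

theorem VC_mom (n k : ℕ) (_hn : 1 ≤ n) :
    Ex P (boxE n) (fun F => VC n F ^ k) ≤ Pool.Agent.Y244.PC.W n k {0} := by
  classical
  refine le_trans ?_ (Ex_U_le n k {0})
  apply Ex_mono w_ok
  intro F _
  have h0 : (0 : Vtx) ∈ bx n := by
    rw [VolAux.mem_bx]
    simp [nv]
  obtain ⟨T, hT⟩ : ∃ T : Finset Vtx, T = (bx n).filter (fun x => Reach (↑F) (0, 0) x) := ⟨_, rfl⟩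
  have e : VC n F = (T.card : ℝ) := by
    unfold VC
    rw [w_sum_ind, hT]
  rw [e]
  apply U_ge
  · rw [hT]; exact Finset.filter_subset _ _
  · intro u hu v hv
    rw [hT, Finset.mem_filter] at hu hv
    exact hu.2.symm.trans hv.2
  · rw [Finset.singleton_subset_iff, hT, Finset.mem_filter]
    exact ⟨h0, Reach.refl _ _⟩

/-- the bound for the sums of the connection probabilities -/
theorem W_arm : ∃ A b : ℝ, 0 < A ∧ 0 < b ∧ ∀ m : ℕ, 1 ≤ m → ∀ k : ℕ,
    Pool.Agent.Y244.PC.W (33 * m) (k + 1) {0} ≤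
      A * (m : ℝ) ^ (-(5 / 48 : ℝ)) *
        ((k + 1).factorial * (b * (m : ℝ) ^ (91 / 48 : ℝ)) ^ (k + 1)) := by
  obtain ⟨C1, hC1, h1⟩ := step_sum Pool.Agent.H160R2.SA.arSharp
  obtain ⟨C2, hC2, h2⟩ := sum_two
  obtain ⟨b, hb⟩ : ∃ b : ℝ, b = C1 * 33 ^ 2 * Real.exp 1 + 1 := ⟨_, rfl⟩
  have hb1 : 1 ≤ b := by rw [hb]; linarith [(by positivity : (0:ℝ) < C1 * 33 ^ 2 * Real.exp 1)]
  have hb0 : 0 < b := by linarith
  refine ⟨C2 * 33 ^ 2 * Real.exp 2, b, by positivity, hb0, fun m hm k => ?_⟩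
  have hm0 : (0 : ℝ) < m := by exact_mod_cast hm
  obtain ⟨n, hn⟩ : ∃ n : ℕ, n = 33 * m := ⟨_, rfl⟩
  rw [← hn]
  have hn1 : 1 ≤ n := by omega
  obtain ⟨J, hJ⟩ : ∃ J : ℝ, J = C1 * ((n : ℝ) ^ (91 / 48 : ℝ) *
      ((k + 2 : ℕ) : ℝ) ^ (5 / 96 : ℝ)) := ⟨_, rfl⟩
  have hJ0 : 0 ≤ J := by rw [hJ]; positivity
  have hW : Pool.Agent.Y244.PC.W n (k + 1) {0} ≤ J ^ k * (C2 * (n : ℝ) ^ (43 / 24 : ℝ)) := by
    show ∑ x ∈ bx n, Pool.Agent.Y244.PC.W n k (insert x {0}) ≤ _
    have h00 : (0 : Vtx) ∈ bx n := by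
      rw [VolAux.mem_bx]
      simp [nv]
    calc ∑ x ∈ bx n, Pool.Agent.Y244.PC.W n k (insert x {0})
        ≤ ∑ x ∈ bx n, J ^ k * PX (insert x {0}) := by
          apply Finset.sum_le_sum
          intro x hx
          rw [hJ]
          apply W_bound hC1 hn1 (h1 n hn1) k _ (k + 2) (Finset.insert_nonempty _ _)
          · exact Finset.insert_subset hx (Finset.singleton_subset_iff.mpr h00)
          · have := Finset.card_insert_le x ({0} : Finset Vtx)
            rw [Finset.card_singleton] at this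
            omega
      _ = J ^ k * ∑ x ∈ bx n, PX (insert x {0}) := by rw [Finset.mul_sum]
      _ ≤ _ := mul_le_mul_of_nonneg_left (h2 n hn1) (by positivity)
  have p1 := pow33 hm (a := 91 / 48) (by norm_num) (by norm_num)
  have p2 := pow33 hm (a := 43 / 24) (by norm_num) (by norm_num)
  rw [← hn] at p1 p2
  have p3 := pow_fac k
  have hJk : J ^ k ≤ (C1 * 33 ^ 2 * (m : ℝ) ^ (91 / 48 : ℝ)) ^ k *
      (Real.exp 2 * (k.factorial * Real.exp 1 ^ k)) := by
    have e1 : J = (C1 * (n : ℝ) ^ (91 / 48 : ℝ)) * ((k + 2 : ℕ) : ℝ) ^ (5 / 96 : ℝ) := by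
      rw [hJ]; ring
    rw [e1, mul_pow]
    apply mul_le_mul _ p3 (by positivity) (by positivity)
    apply pow_le_pow_left₀ (by positivity)
    calc C1 * (n : ℝ) ^ (91 / 48 : ℝ) ≤ C1 * (33 ^ 2 * (m : ℝ) ^ (91 / 48 : ℝ)) :=
          mul_le_mul_of_nonneg_left p1 hC1.le
      _ = _ := by ring
  calc Pool.Agent.Y244.PC.W n (k + 1) {0}
      ≤ J ^ k * (C2 * (n : ℝ) ^ (43 / 24 : ℝ)) := hW
    _ ≤ ((C1 * 33 ^ 2 * (m : ℝ) ^ (91 / 48 : ℝ)) ^ k *
          (Real.exp 2 * (k.factorial * Real.exp 1 ^ k))) *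
          (C2 * (33 ^ 2 * (m : ℝ) ^ (43 / 24 : ℝ))) := by
        apply mul_le_mul hJk _ (by positivity) (by positivity)
        exact mul_le_mul_of_nonneg_left p2 hC2.le
    _ = (C2 * 33 ^ 2 * Real.exp 2) * (m : ℝ) ^ (-(5 / 48 : ℝ)) *
          (k.factorial * ((C1 * 33 ^ 2 * Real.exp 1 * (m : ℝ) ^ (91 / 48 : ℝ)) ^ k *
            (m : ℝ) ^ (91 / 48 : ℝ))) := by
        rw [pow_split hm]
        simp only [mul_pow]
        ring
    _ ≤ (C2 * 33 ^ 2 * Real.exp 2) * (m : ℝ) ^ (-(5 / 48 : ℝ)) *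
          ((k + 1).factorial * (b * (m : ℝ) ^ (91 / 48 : ℝ)) ^ (k + 1)) := by
        apply mul_le_mul_of_nonneg_left _ (by positivity)
        apply mul_le_mul
        · exact_mod_cast Nat.factorial_le (Nat.le_succ k)
        · rw [pow_succ (b * (m : ℝ) ^ (91 / 48 : ℝ)) k]
          apply mul_le_mul
          · apply pow_le_pow_left₀ (by positivity)
            apply mul_le_mul_of_nonneg_right _ (by positivity)
            rw [hb]
            linarith
          · calc (m : ℝ) ^ (91 / 48 : ℝ) = 1 * (m : ℝ) ^ (91 / 48 : ℝ) := (one_mul _).symm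
              _ ≤ _ := mul_le_mul_of_nonneg_right hb1 (by positivity)
          · positivity
          · positivity
        · positivity
        · positivity

theorem two_pow_ge (k : ℕ) : ((k : ℝ) + 2) ≤ 2 ^ (k + 1) := by
  induction k with
  | zero => norm_num
  | succ k ih =>
    rw [pow_succ]
    push_cast
    linarith [(Nat.cast_nonneg k : (0:ℝ) ≤ k)]

/-- large clusters in a box at the critical point -/
theorem short_crit : ∃ A c : ℝ, 0 < A ∧ 0 < c ∧ ∀ m : ℕ, 1 ≤ m → ∀ s : ℝ, 0 ≤ s →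
    s * (m : ℝ) ^ (91 / 48 : ℝ) ≤ c → ∀ x : ℝ, (m : ℝ) ^ (91 / 48 : ℝ) ≤ x →
    Pr P (boxE (33 * m)) (fun F => Vol x ↑F) ≤
      A * (m : ℝ) ^ (-(5 / 48 : ℝ)) * Real.exp (-(s * x)) := by
  obtain ⟨A, b, hA, hb, h⟩ := W_arm
  refine ⟨A * b + 2 * (A * b), 1 / (4 * b), by positivity, by positivity, ?_⟩
  intro m hm s hs hsc x hx
  have hm0 : (0 : ℝ) < m := by exact_mod_cast hm
  obtain ⟨y, hy⟩ : ∃ y : ℝ, y = (m : ℝ) ^ (91 / 48 : ℝ) := ⟨_, rfl⟩
  obtain ⟨q, hq⟩ : ∃ q : ℝ, q = (m : ℝ) ^ (-(5 / 48 : ℝ)) := ⟨_, rfl⟩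
  have hy0 : 0 < y := by rw [hy]; positivity
  have hq0 : 0 < q := by rw [hq]; positivity
  rw [← hy] at hsc hx
  rw [← hq]
  have hn : 1 ≤ 33 * m := by omega
  have hk : s * (2 * (b * y)) ≤ 1 / 2 := by
    calc s * (2 * (b * y)) = 2 * b * (s * y) := by ring
      _ ≤ 2 * b * (1 / (4 * b)) := mul_le_mul_of_nonneg_left hsc (by positivity)
      _ = 1 / 2 := by field_simp; norm_num
  have h0 : Ex P (boxE (33 * m)) (VC (33 * m)) ≤ A * b * q * y := by
    have h1 := (VC_mom (33 * m) 1 hn).trans (h m hm 0)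
    rw [← hy, ← hq] at h1
    have e : Ex P (boxE (33 * m)) (fun F => VC (33 * m) F ^ 1) =
        Ex P (boxE (33 * m)) (VC (33 * m)) := by
      apply Ex_congr
      intro F _
      rw [pow_one]
    rw [e] at h1
    refine h1.trans (le_of_eq ?_)
    rw [zero_add, Nat.factorial_one, pow_one, Nat.cast_one]
    ring
  have h1 : ∀ k : ℕ, Ex P (boxE (33 * m)) (fun F => VC (33 * m) F * VC (33 * m) F ^ (k + 1)) ≤
      (A * b * q * y) * ((k + 1).factorial * (2 * (b * y)) ^ (k + 1)) := by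
    intro k
    have e : Ex P (boxE (33 * m)) (fun F => VC (33 * m) F * VC (33 * m) F ^ (k + 1)) =
        Ex P (boxE (33 * m)) (fun F => VC (33 * m) F ^ (k + 1 + 1)) := by
      apply Ex_congr
      intro F _
      rw [pow_succ _ (k + 1), mul_comm]
    rw [e]
    have h2 := (VC_mom (33 * m) (k + 1 + 1) hn).trans (h m hm (k + 1))
    rw [← hy, ← hq] at h2
    refine h2.trans ?_
    have hf : ((k + 1 + 1).factorial : ℝ) = ((k : ℝ) + 2) * (k + 1).factorial := by
      rw [Nat.factorial_succ (k + 1)]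
      push_cast
      ring
    rw [hf]
    calc A * q * (((k : ℝ) + 2) * (k + 1).factorial * (b * y) ^ (k + 1 + 1))
        = (A * b * q * y) * (((k + 1).factorial * (b * y) ^ (k + 1)) * ((k : ℝ) + 2)) := by
          rw [pow_succ (b * y) (k + 1)]
          ring
      _ ≤ (A * b * q * y) * (((k + 1).factorial * (b * y) ^ (k + 1)) * 2 ^ (k + 1)) := by
          apply mul_le_mul_of_nonneg_left _ (by positivity)
          exact mul_le_mul_of_nonneg_left (two_pow_ge k) (by positivity)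
      _ = _ := by
          rw [mul_pow 2 (b * y)]
          ring
  have h2 := exp_moment (p := P) (S := boxE (33 * m)) (w := VC (33 * m)) (V := VC (33 * m))
    (A := A * b * q * y) (A0 := A * b * q * y) (b := 2 * (b * y)) (s := s) (by positivity)
    (by positivity) hs hk h0 h1
  have hx0 : 0 < x := lt_of_lt_of_le hy0 hx
  have hpt : ∀ F, F ⊆ boxE (33 * m) → x * Real.exp (s * x) * ind (Vol x ↑F) ≤
      VC (33 * m) F * Real.exp (s * VC (33 * m) F) := by
    classical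
    intro F hF
    by_cases hv : Vol x ↑F
    · rw [ind_of hv, mul_one]
      obtain ⟨T, hT, hr⟩ := hv
      have hcard : (T.card : ℝ) ≤ VC (33 * m) F := by
        unfold VC
        rw [w_sum_ind]
        have hsub : T ⊆ (bx (33 * m)).filter (fun x => Reach (↑F) (0, 0) x) := by
          intro u hu
          rw [Finset.mem_filter]
          refine ⟨?_, hr u hu⟩
          have h00 : ((0, 0) : Vtx) ∈ bx (33 * m) := by
            rw [VolAux.mem_bx]
            simp [nv]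
          apply w_reach_bx h00 (F := ↑F)
          refine (hr u hu).mono ?_
          intro e he
          exact ⟨he, hF he⟩
        exact_mod_cast Finset.card_le_card hsub
      have h3 := hT.trans hcard
      apply mul_le_mul h3 _ (Real.exp_pos _).le (VC_nonneg _ _)
      apply Real.exp_le_exp.mpr
      exact mul_le_mul_of_nonneg_left h3 hs
    · rw [ind_not_of hv, mul_zero]
      exact mul_nonneg (VC_nonneg _ _) (Real.exp_pos _).le
  have h3 := Ex_mono w_ok hpt
  rw [Ex_mul_left] at h3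
  have h4 : x * Real.exp (s * x) * Pr P (boxE (33 * m)) (fun F => Vol x ↑F) ≤
      (A * b + 2 * (A * b)) * q * y := by
    refine (h3.trans h2).trans ?_
    have : 2 * (A * b * q * y) * (s * (2 * (b * y))) ≤ 2 * (A * b * q * y) * 1 :=
      mul_le_mul_of_nonneg_left (by linarith) (by positivity)
    nlinarith
  have h5 : (A * b + 2 * (A * b)) * q * y ≤ (A * b + 2 * (A * b)) * q * x :=
    mul_le_mul_of_nonneg_left hx (by positivity)
  have h6 : x * Real.exp (s * x) * Pr P (boxE (33 * m)) (fun F => Vol x ↑F) ≤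
      x * Real.exp (s * x) * ((A * b + 2 * (A * b)) * q * Real.exp (-(s * x))) := by
    refine (h4.trans h5).trans (le_of_eq ?_)
    rw [Real.exp_neg]
    field_simp
  exact le_of_mul_le_mul_left h6 (by positivity)

/-- the cluster stays in the box if it does not reach its exterior -/
theorem stay {F : Finset Edg} {n : ℕ} (h : ∀ w : Vtx, Reach (↑F) (0, 0) w → nv w ≤ n) {v : Vtx}
    (hv : Reach (↑F) (0, 0) v) : Reach (↑(F ∩ boxE n)) (0, 0) v := by
  induction hv with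
  | refl => exact Reach.refl _ _
  | @tail b c hb hbc ih =>
    have h1 := h b hb
    have h2 := h c (hb.tail hbc)
    obtain ⟨e, he, hc⟩ := hbc
    refine ih.trans (Adj.reach ⟨e, ?_, hc⟩)
    rw [Finset.coe_inter]
    refine ⟨he, ?_⟩
    rw [Finset.mem_coe, InfMax.mem_boxE]
    rcases hc with ⟨k1, k2⟩ | ⟨k1, k2⟩
    · rw [k1, k2]
      exact ⟨VolAux.mem_bx.mpr h1, VolAux.mem_bx.mpr h2⟩
    · rw [k1, k2]
      exact ⟨VolAux.mem_bx.mpr h2, VolAux.mem_bx.mpr h1⟩

theorem Vol_inc (x : ℝ) : IncA (fun F => Vol x ↑F) := by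
  rintro F G h ⟨T, hT, hr⟩
  exact ⟨T, hT, fun u hu => (hr u hu).mono (by exact_mod_cast h)⟩

/-- the tail of the cluster size beyond the correlation volume, in finite volume -/
theorem upper_fin : ∃ A c E : ℝ, 0 < A ∧ 0 < c ∧ 1 ≤ E ∧ ∀ p : ℝ, 0 ≤ p → p < 1 / 2 →
    ∃ m : ℕ, 1 ≤ m ∧ (m : ℝ) * (1 / 2 - p) ^ (4 / 3 : ℝ) ≤ E ∧
      1 ≤ (m : ℝ) * (1 / 2 - p) ^ (4 / 3 : ℝ) ∧
      ∀ x : ℝ, (m : ℝ) ^ (91 / 48 : ℝ) ≤ x → ∀ U : Finset Edg,
        Pr (fun _ => p) U (fun F => Vol x ↑F) ≤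
          A * (m : ℝ) ^ (-(5 / 48 : ℝ)) * Real.exp (-(c * (x / (m : ℝ) ^ (91 / 48 : ℝ)))) := by
  obtain ⟨E, hE, hfar⟩ := Pool.Agent.W424.NC.farN
  obtain ⟨A1, c1, hA1, hc1, h1⟩ := expo
  obtain ⟨A2, c2, hA2, hc2, h2⟩ := short_crit
  obtain ⟨c, hc⟩ : ∃ c : ℝ, c = min (c1 / 50) c2 := ⟨_, rfl⟩
  have hc0 : 0 < c := by rw [hc]; exact lt_min (by positivity) hc2
  have hcc1 : 50 * c ≤ c1 := by
    have : c ≤ c1 / 50 := by rw [hc]; exact min_le_left _ _
    linarith
  have hcc2 : c ≤ c2 := by rw [hc]; exact min_le_right _ _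
  refine ⟨2 * (A1 * 1024 ^ 25) + A2, c, 32 * E, by positivity, hc0, by linarith,
    fun p hp0 hp => ?_⟩
  obtain ⟨N, hN2, hNE, hN1, heps⟩ := hfar p hp0 hp
  have h43 : 0 < (1 / 2 - p) ^ (4 / 3 : ℝ) := Real.rpow_pos_of_pos (by linarith) _
  refine ⟨32 * N, by omega, ?_, ?_, ?_⟩
  · push_cast
    calc 32 * (N : ℝ) * (1 / 2 - p) ^ (4 / 3 : ℝ) = 32 * (N * (1 / 2 - p) ^ (4 / 3 : ℝ)) := by ring
      _ ≤ 32 * E := by linarith
  · push_cast
    nlinarith
  · intro x hx U
    obtain ⟨m, hm⟩ : ∃ m : ℕ, m = 32 * N := ⟨_, rfl⟩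
    rw [← hm] at hx ⊢
    have hm1 : 1 ≤ m := by omega
    have hm0 : (0 : ℝ) < m := by exact_mod_cast hm1
    have hM : 8 * m = 2 ^ 8 * N := by omega
    obtain ⟨y, hy⟩ : ∃ y : ℝ, y = (m : ℝ) ^ (91 / 48 : ℝ) := ⟨_, rfl⟩
    obtain ⟨q, hq⟩ : ∃ q : ℝ, q = (m : ℝ) ^ (-(5 / 48 : ℝ)) := ⟨_, rfl⟩
    have hy0 : 0 < y := by rw [hy]; positivity
    have hq0 : 0 < q := by rw [hq]; positivity
    rw [← hy] at hx ⊢
    rw [← hq]
    obtain ⟨lam, hlam⟩ : ∃ lam : ℝ, lam = c / y := ⟨_, rfl⟩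
    have hlam0 : 0 < lam := by rw [hlam]; positivity
    have hly : lam * y = c := by rw [hlam]; field_simp
    have hp1 : p ≤ 1 / 2 := hp.le
    have ok := okq hp0 (show p ≤ 1 by linarith)
    have hlx : c * (x / y) = lam * x := by rw [hlam]; ring
    rw [hlx]
    -- the blocks near the origin
    have hblk : ∀ z : Ix, nm z ≤ 2 → ∀ v ∈ blk (8 * m) z, nv v ≤ 24 * m := by
      intro z hz v hv
      rw [nm_le] at hz
      rw [mem_blk] at hv
      unfold nv
      obtain ⟨a, ha⟩ : ∃ a : ℤ, a = z 0 := ⟨_, rfl⟩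
      obtain ⟨b, hb⟩ : ∃ b : ℤ, b = z 1 := ⟨_, rfl⟩
      rw [← ha, ← hb] at hz hv
      have hm' : (0 : ℤ) < m := by exact_mod_cast hm1
      push_cast at hv
      have ha1 : -2 ≤ a := by omega
      have ha2 : a ≤ 2 := by omega
      have hb1 : -2 ≤ b := by omega
      have hb2 : b ≤ 2 := by omega
      have k1 : 8 * (m : ℤ) * a ≤ 8 * m * 2 := by nlinarith
      have k2 : 8 * (m : ℤ) * (-2) ≤ 8 * m * a := by nlinarith
      have k3 : 8 * (m : ℤ) * b ≤ 8 * m * 2 := by nlinarith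
      have k4 : 8 * (m : ℤ) * (-2) ≤ 8 * m * b := by nlinarith
      omega
    have hE25 : ∀ z : Ix, nm z ≤ 2 → Ex P U (fun F => ind (QQ (8 * m) {0} F) *
        Real.exp (25 * lam * VV (8 * m) (blk (8 * m) z) F)) ≤ A1 * q := by
      intro z hz
      have := (h1 m hm1 U (blk (8 * m) z) (hblk z hz) (25 * lam) (by positivity) (by
        rw [← hy]
        nlinarith)).1
      rw [← hq] at this
      exact this
    have hE50 : ∀ S : Finset Edg,
        Ex P S (fun F => Real.exp (50 * lam * VV (8 * m) (blk (8 * m) 0) F)) ≤ 2 := by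
      intro S
      exact (h1 m hm1 S (blk (8 * m) 0) (hblk 0 (by rw [nm_le]; simp)) (50 * lam) (by positivity)
        (by rw [← hy]; nlinarith)).2
    have hfar' : ∀ z : Ix, Ex (fun _ => p) U (fun F => xz (8 * m) lam z F ^ 25) ≤
        (1 / 1024) ^ 25 := by
      intro z
      apply xz_far hp0 hp1 hlam0.le z U _ hE50
      rw [hM]
      exact pr_Cs hp0 (by linarith) hN2 heps z U
    have hnear' : ∀ z : Ix, nm z ≤ 2 →
        Ex (fun _ => p) U (fun F => ind (QQ (8 * m) {0} F) * xz (8 * m) lam z F ^ 25) ≤ A1 * q :=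
      fun z hz => xz_near hp0 hp1 hlam0.le z U (hE25 z hz)
    have hno' : Ex (fun _ => p) U (fun F => ind (QQ (8 * m) {0} F)) ≤ A1 * q := by
      refine (Ex_le_half hp0 hp1 U (fun F G h => ind_mono (QQ_inc _ _ F G h))).trans ?_
      have k := (h1 m hm1 U ∅ (fun x hx => absurd hx (Finset.notMem_empty x)) 0 le_rfl
        (by rw [zero_mul]; exact hc1.le)).1
      rw [← hq] at k
      refine le_trans (le_of_eq ?_) k
      apply Ex_congr
      intro F _
      rw [zero_mul, Real.exp_zero, mul_one]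
    have hlong := union_bound hp0 hp1 hlam0.le (by positivity) (by omega : 1 ≤ 8 * m) U hfar'
      hnear' hno' x
    -- the short clusters
    have hshort : Pr (fun _ => p) U (fun F => Vol x ↑(F ∩ boxE (33 * m))) ≤
        A2 * q * Real.exp (-(lam * x)) := by
      have i1 : IncA (fun F : Finset Edg => Vol x ↑(F ∩ boxE (33 * m))) := by
        intro F G h hF
        exact Vol_inc x _ _ (Finset.inter_subset_inter_right h) hF
      have i2 : Pr (fun _ => p) U (fun F => Vol x ↑(F ∩ boxE (33 * m))) ≤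
          Pr P U (fun F => Vol x ↑(F ∩ boxE (33 * m))) :=
        Ex_le_half hp0 hp1 U (fun F G h => ind_mono (i1 F G h))
      have i3 : LocE (boxE (33 * m)) (fun F : Finset Edg => Vol x ↑(F ∩ boxE (33 * m))) := by
        intro F
        show Vol x ↑(F ∩ boxE (33 * m)) ↔ Vol x ↑(F ∩ boxE (33 * m) ∩ boxE (33 * m))
        rw [Finset.inter_assoc, Finset.inter_self]
      have i4 := pr_le_loc U (boxE (33 * m)) i1 i3
      have i5 : Pr P (boxE (33 * m)) (fun F => Vol x ↑(F ∩ boxE (33 * m))) =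
          Pr P (boxE (33 * m)) (fun F => Vol x ↑F) := by
        apply Pr_congr
        intro F hF
        rw [Finset.inter_eq_left.mpr hF]
      have i6 := h2 m hm1 lam hlam0.le (by rw [← hy, hly]; exact hcc2) x (by rw [← hy]; exact hx)
      rw [← hq] at i6
      rw [i5] at i4
      exact i2.trans (i4.trans i6)
    have hsplit : Pr (fun _ => p) U (fun F => Vol x ↑F) ≤
        Pr (fun _ => p) U (fun F => Vol x ↑F ∧ ∃ w : Vtx, Reach (↑F) (0, 0) w ∧
          4 * (8 * m) ≤ nv w) + Pr (fun _ => p) U (fun F => Vol x ↑(F ∩ boxE (33 * m))) := by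
      refine (Pr_mono ok ?_).trans (Pr_or_le ok U _ _)
      intro F _ hV
      by_cases hw : ∃ w : Vtx, Reach (↑F) (0, 0) w ∧ 4 * (8 * m) ≤ nv w
      · exact Or.inl ⟨hV, hw⟩
      · right
        push Not at hw
        obtain ⟨T, hT, hr⟩ := hV
        refine ⟨T, hT, fun u hu => stay (fun w hw' => ?_) (hr u hu)⟩
        have := hw w hw'
        omega
    calc Pr (fun _ => p) U (fun F => Vol x ↑F)
        ≤ 2 * (A1 * q * 1024 ^ 25) * Real.exp (-(lam * x)) + A2 * q * Real.exp (-(lam * x)) :=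
          hsplit.trans (add_le_add hlong hshort)
      _ = _ := by ring

end Q291.CS
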